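import Pool.Agent.H17GT.Base
import Pool.Agent.H23.LogDer

/-!
# Derivations which extend derivations of `ℂ` preserve divisorial valuation rings
-/

open Pool.Agent.H23

set_option linter.style.haveILetI false

noncomputable section

namespace Pool.Agent.H17GT

section aux

open Polynomial

variable {K : Type*} [Field K] [Algebra ℂ K] (v : AddValuation K (WithTop ℤ))

variable {σ : Type*} {s : σ → K} {t : K}

private lemma derZ_ev_nonneg
    (hs : ∀ p : MvPolynomial σ ℂ, p ≠ 0 → v (MvPolynomial.aeval s p) = 0)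
    (ht : v t = 1)
    (D : Derivation ℤ K K) (hDC : ∀ c : ℂ, 0 ≤ v (D (algebraMap ℂ K c))) (hDt : 0 ≤ v (D t)) (hDs : ∀ i, 0 ≤ v (D (s i)))
    (q : (MvPolynomial σ ℂ)[X]) : 0 ≤ v (D (ev s t q)) := by
  have h0 : ∀ p : MvPolynomial σ ℂ, 0 ≤ v (D (MvPolynomial.aeval s p)) := by
    intro p
    induction p using MvPolynomial.induction_on with
    | C a =>
      rw [MvPolynomial.aeval_C]
      exact hDC a
    | add p q hp hq =>
      rw [map_add, map_add]
      exact v.map_le_add hp hq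
    | mul_X p i hp =>
      rw [map_mul, MvPolynomial.aeval_X, D.leibniz, smul_eq_mul, smul_eq_mul]
      apply v.map_le_add
      · rw [v.map_mul]
        exact add_nonneg (val_aeval_nonneg v hs _) (hDs i)
      · rw [v.map_mul]
        have : 0 ≤ v (s i) := by
          have := val_aeval_nonneg v hs (MvPolynomial.X i)
          rwa [MvPolynomial.aeval_X] at this
        exact add_nonneg this hp
  induction q using Polynomial.induction_on' with
  | add p q hp hq =>
    rw [map_add, map_add]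
    exact v.map_le_add hp hq
  | monomial n a =>
    have hDtn : 0 ≤ v (D (t ^ n)) := by
      rw [D.leibniz_pow, nsmul_eq_mul, smul_eq_mul, v.map_mul, v.map_mul, v.map_pow, ht]
      have h1 : 0 ≤ v ((n : K)) := by
        have := val_aeval_nonneg v hs (n : MvPolynomial σ ℂ)
        simpa using this
      exact add_nonneg h1 (add_nonneg (by simp) hDt)
    rw [← Polynomial.C_mul_X_pow_eq_monomial, map_mul, map_pow, ev_X, ev_C, D.leibniz,
      smul_eq_mul, smul_eq_mul]
    apply v.map_le_add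
    · rw [v.map_mul]
      exact add_nonneg (val_aeval_nonneg v hs _) hDtn
    · rw [v.map_mul, v.map_pow, ht]
      exact add_nonneg (by simp) (h0 _)

/-- The loss of a derivation on the valuation ring is bounded. -/
private lemma derZ_exists_bound [Algebra.EssFiniteType ℂ K]
    (hs : ∀ p : MvPolynomial σ ℂ, p ≠ 0 → v (MvPolynomial.aeval s p) = 0)
    (ht : v t = 1)
    [Finite σ]
    (halg : ∀ f : K, ∃ F : (MvPolynomial σ ℂ)[X][X], F ≠ 0 ∧ F.eval₂ (ev s t) f = 0)
    (D : Derivation ℤ K K) (hDC : ∀ c : ℂ, 0 ≤ v (D (algebraMap ℂ K c))) (hDt : 0 ≤ v (D t)) (hDs : ∀ i, 0 ≤ v (D (s i))) :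
    ∃ ℓ : ℕ, ∀ f, 0 ≤ v f → ((-(ℓ : ℤ) : ℤ) : WithTop ℤ) ≤ v (D f) := by
  classical
  letI alg1 : Algebra (MvPolynomial σ ℂ)[X] K := (ev s t).toAlgebra
  have hmap : ∀ r, algebraMap (MvPolynomial σ ℂ)[X] K r = ev s t r := fun _ => rfl
  haveI : FaithfulSMul (MvPolynomial σ ℂ)[X] K := by
    rw [faithfulSMul_iff_algebraMap_injective]
    exact ev_injective v hs ht
  haveI : IsScalarTower ℂ (MvPolynomial σ ℂ)[X] K := by
    apply IsScalarTower.of_algebraMap_eq
    intro c
    rw [hmap, Polynomial.algebraMap_apply, ev_C, MvPolynomial.algebraMap_eq, MvPolynomial.aeval_C]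
  letI alg2 : Algebra (FractionRing (MvPolynomial σ ℂ)[X]) K := FractionRing.liftAlgebra _ K
  haveI : IsScalarTower (MvPolynomial σ ℂ)[X] (FractionRing (MvPolynomial σ ℂ)[X]) K :=
    inferInstance
  haveI : IsScalarTower ℂ (FractionRing (MvPolynomial σ ℂ)[X]) K := by
    apply IsScalarTower.of_algebraMap_eq
    intro c
    rw [IsScalarTower.algebraMap_apply ℂ (MvPolynomial σ ℂ)[X] K,
      IsScalarTower.algebraMap_apply ℂ (MvPolynomial σ ℂ)[X] (FractionRing (MvPolynomial σ ℂ)[X]),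
      ← IsScalarTower.algebraMap_apply (MvPolynomial σ ℂ)[X]
        (FractionRing (MvPolynomial σ ℂ)[X]) K]
  haveI : Algebra.EssFiniteType (FractionRing (MvPolynomial σ ℂ)[X]) K :=
    Algebra.EssFiniteType.of_comp ℂ _ K
  haveI : Algebra.IsAlgebraic (MvPolynomial σ ℂ)[X] K := ⟨fun f => by
    obtain ⟨F, h1, h2⟩ := halg f
    exact ⟨F, h1, h2⟩⟩
  haveI : Algebra.IsAlgebraic (FractionRing (MvPolynomial σ ℂ)[X]) K :=
    (IsFractionRing.comap_isAlgebraic_iff (A := (MvPolynomial σ ℂ)[X])).1 this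
  haveI : Module.Finite (FractionRing (MvPolynomial σ ℂ)[X]) K :=
    Algebra.finite_of_essFiniteType_of_isAlgebraic
  haveI : CharZero (FractionRing (MvPolynomial σ ℂ)[X]) :=
    algebraRat.charZero _
  haveI : Algebra.IsSeparable (FractionRing (MvPolynomial σ ℂ)[X]) K := inferInstance
  haveI : Module.Finite (MvPolynomial σ ℂ)[X] (integralClosure (MvPolynomial σ ℂ)[X] K) :=
    IsIntegralClosure.finite (A := (MvPolynomial σ ℂ)[X])
      (K := (FractionRing (MvPolynomial σ ℂ)[X])) (L := K)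
      (C := (integralClosure (MvPolynomial σ ℂ)[X] K))
  obtain ⟨S, hS⟩ := Module.Finite.fg_top (R := (MvPolynomial σ ℂ)[X])
    (M := (integralClosure (MvPolynomial σ ℂ)[X] K))
  have hint : ∀ b ∈ integralClosure (MvPolynomial σ ℂ)[X] K, 0 ≤ v b := fun b hb =>
    val_nonneg_of_isIntegral v (fun r => val_ev_nonneg v hs ht r) hb
  -- a bound on generators
  have hbd : ∀ x : K, ∃ ℓ : ℕ, ((-(ℓ : ℤ) : ℤ) : WithTop ℤ) ≤ v x := by
    intro x
    by_cases hx : x = 0
    · exact ⟨0, by simp [hx]⟩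
    · obtain ⟨k, hk⟩ := exists_int v hx
      refine ⟨k.natAbs, ?_⟩
      rw [hk]
      exact WithTop.coe_le_coe.2 (by omega)
  choose! bd hbd using hbd
  set ℓ : ℕ := S.sup (fun x => bd (D (x : K))) with hℓ
  have hℓS : ∀ x ∈ S, ((-(ℓ : ℤ) : ℤ) : WithTop ℤ) ≤ v (D (x : K)) := by
    intro x hx
    refine le_trans ?_ (hbd _)
    have : bd (D (x : K)) ≤ ℓ := Finset.le_sup
      (f := fun x : integralClosure (MvPolynomial σ ℂ)[X] K => bd (D (x : K))) hx
    exact WithTop.coe_le_coe.2 (by omega)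
  have hℓ0 : ((-(ℓ : ℤ) : ℤ) : WithTop ℤ) ≤ 0 := by
    exact_mod_cast (show (-(ℓ : ℤ) : ℤ) ≤ 0 by omega)
  have hB : ∀ b : integralClosure (MvPolynomial σ ℂ)[X] K,
      ((-(ℓ : ℤ) : ℤ) : WithTop ℤ) ≤ v (D (b : K)) := by
    intro b
    have hb : b ∈ Submodule.span (MvPolynomial σ ℂ)[X] (S : Set (integralClosure (MvPolynomial σ ℂ)[X] K)) := by
      rw [hS]; trivial
    induction hb using Submodule.span_induction with
    | mem x hx => exact hℓS x hx
    | zero => simp
    | add x y _ _ hx hy =>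
      push_cast
      rw [map_add]
      exact v.map_le_add hx hy
    | smul r x _ hx =>
      have h1 : ((r • x : integralClosure (MvPolynomial σ ℂ)[X] K) : K) = ev s t r * (x : K) := by
        rw [Subalgebra.coe_smul, Algebra.smul_def]; rfl
      rw [h1, D.leibniz, smul_eq_mul, smul_eq_mul]
      apply v.map_le_add
      · rw [v.map_mul]
        exact le_trans hx (le_add_of_nonneg_left (val_ev_nonneg v hs ht r))
      · rw [v.map_mul]
        exact le_trans hℓ0 (add_nonneg (hint _ x.2) (derZ_ev_nonneg v hs ht D hDC hDt hDs r))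
  refine ⟨ℓ, fun f hf => ?_⟩
  have ht0 : t ≠ 0 := by
    rintro rfl
    simp at ht
  obtain ⟨F, hF, hFf⟩ := halg f
  obtain ⟨G, hG1, i, hG2⟩ := exists_primitive hF hFf ht0
  obtain ⟨b, hb, c, hc, hvc, hfc⟩ := horner_aux (R := (MvPolynomial σ ℂ)[X]) v hint hf _
    (G.map (algebraMap (MvPolynomial σ ℂ)[X] (integralClosure (MvPolynomial σ ℂ)[X] K))) le_rfl
    (by
      rw [aeval_map_algebraMap]
      exact hG1)
    ⟨i, by
      rw [coeff_map]
      exact val_ev_eq_zero v hs ht hG2⟩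
  have hc0 : c ≠ 0 := by
    rintro rfl
    simp at hvc
  have h1 : D b = f * D c + c * D f := by
    rw [← hfc, D.leibniz, smul_eq_mul, smul_eq_mul]
  have h2 : c * D f = D b - f * D c := by rw [h1]; ring
  have h3 : v (D f) = v (D b - f * D c) := by
    rw [← h2, v.map_mul, hvc, zero_add]
  rw [h3]
  apply v.map_le_sub (hB ⟨b, hb⟩)
  rw [v.map_mul]
  exact le_trans (hB ⟨c, hc⟩) (le_add_of_nonneg_left hf)

private lemma derZ_eval2 (D : Derivation ℤ K K) (hD : ∀ p : MvPolynomial σ ℂ, 0 ≤ v (D (MvPolynomial.aeval s p)))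
    {f : K} (hf : 0 ≤ v f) (G : (MvPolynomial σ ℂ)[X]) :
    ∃ r : K, 0 ≤ v r ∧ D (G.eval₂ (MvPolynomial.aeval s).toRingHom f) =
      r + G.derivative.eval₂ (MvPolynomial.aeval s).toRingHom f * D f := by
  induction G using Polynomial.induction_on' with
  | add p q hp hq =>
    obtain ⟨r, hr, h1⟩ := hp
    obtain ⟨r', hr', h2⟩ := hq
    refine ⟨r + r', v.map_le_add hr hr', ?_⟩
    rw [eval₂_add, map_add, h1, h2, derivative_add, eval₂_add]
    ring
  | monomial n a =>
    refine ⟨f ^ n * D (MvPolynomial.aeval s a), ?_, ?_⟩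
    · rw [v.map_mul, v.map_pow]
      exact add_nonneg (nsmul_nonneg hf _) (hD a)
    · rw [eval₂_monomial, derivative_monomial, eval₂_monomial, D.leibniz, D.leibniz_pow]
      change _ + _ = _ + (MvPolynomial.aeval s (a * (n : MvPolynomial σ ℂ))) * f ^ (n - 1) * D f
      rw [map_mul, map_natCast]
      change (MvPolynomial.aeval s a) • n • f ^ (n - 1) • D f + f ^ n • D (MvPolynomial.aeval s a) = _
      simp only [nsmul_eq_mul, smul_eq_mul]
      ring

end aux

section final

open MvPolynomial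

variable {K : Type} [Field K] [Algebra ℂ K]

theorem der_nonneg_of_ext {σ : Type*} [Finite σ] (v : AddValuation K (WithTop ℤ))
    [Algebra.EssFiniteType ℂ K] {s : σ → K} {t : K}
    (hs : ∀ p : MvPolynomial σ ℂ, p ≠ 0 → v (aeval s p) = 0) (ht : v t = 1)
    (halg : ∀ f : K, ∃ F : Polynomial (Polynomial (MvPolynomial σ ℂ)), F ≠ 0 ∧
      F.eval₂ (H23.ev s t) f = 0)
    (D : Derivation ℤ K K) (hDC : ∀ c : ℂ, 0 ≤ v (D (algebraMap ℂ K c))) (hDt : 0 ≤ v (D t))
    (hDs : ∀ i, 0 ≤ v (D (s i))) : ∀ f, 0 ≤ v f → 0 ≤ v (D f) := by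
  classical
  have hex := derZ_exists_bound v hs ht halg D hDC hDt hDs
  have hmin := fun m => Nat.find_min hex (m := m)
  obtain hspec := Nat.find_spec hex
  set ℓ := Nat.find hex with hℓ
  have ht0 : t ≠ 0 := by
    rintro rfl
    simp at ht
  have hDa : ∀ p : MvPolynomial σ ℂ, 0 ≤ v (D (MvPolynomial.aeval s p)) := by
    intro p
    have := derZ_ev_nonneg v hs ht D hDC hDt hDs (Polynomial.C p)
    rwa [ev_C] at this
  rcases Nat.eq_zero_or_pos ℓ with h0 | hpos
  · intro f hf
    have := hspec f hf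
    rw [h0] at this
    simpa using this
  · exfalso
    refine hmin (ℓ - 1) (by omega) (fun f hf => ?_)
    have hle : ((-((ℓ - 1 : ℕ) : ℤ) : ℤ) : WithTop ℤ) ≤ 0 :=
      WithTop.coe_le_coe.2 (show (-((ℓ - 1 : ℕ) : ℤ) : ℤ) ≤ 0 by omega)
    obtain ⟨F, hF, hFf⟩ := halg f
    obtain ⟨G, hG1, hG2⟩ := exists_sep v hs ht hf hF hFf
    obtain ⟨r, hr, hDG⟩ := derZ_eval2 v D hDa hf G
    set g := G.eval₂ (MvPolynomial.aeval s).toRingHom f with hg
    set g' := G.derivative.eval₂ (MvPolynomial.aeval s).toRingHom f with hg'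
    have hh : 0 ≤ v (g / t) := by
      rw [v.map_div, ht]
      induction hx : v g using WithTop.recTopCoe with
      | top => simp
      | coe a =>
        rw [hx] at hG1
        have : (1 : ℤ) ≤ a := by exact_mod_cast hG1
        have h2 : ((a : WithTop ℤ) - 1) = ((a - 1 : ℤ) : WithTop ℤ) := by
          push_cast; rfl
        rw [h2]
        exact_mod_cast (show (0 : ℤ) ≤ a - 1 by omega)
    have h1 : g = t * (g / t) := by field_simp
    have h2 : ((-((ℓ - 1 : ℕ) : ℤ) : ℤ) : WithTop ℤ) ≤ v (D g) := by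
      rw [h1, D.leibniz, smul_eq_mul, smul_eq_mul]
      apply v.map_le_add
      · rw [v.map_mul, ht]
        have h3 := hspec _ hh
        have h4 : ((-((ℓ - 1 : ℕ) : ℤ) : ℤ) : WithTop ℤ) = 1 + ((-(ℓ : ℤ) : ℤ) : WithTop ℤ) := by
          have : (-((ℓ - 1 : ℕ) : ℤ) : ℤ) = 1 + (-(ℓ : ℤ)) := by omega
          rw [this]
          push_cast
          rfl
        rw [h4]
        exact add_le_add le_rfl h3
      · rw [v.map_mul]
        exact le_trans hle (add_nonneg hh hDt)
    have h5 : g' * D f = D g - r := by rw [hDG]; ring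
    have h6 : v (D f) = v (D g - r) := by
      rw [← h5, v.map_mul, hG2, zero_add]
    rw [h6]
    exact v.map_le_sub h2 (le_trans hle hr)

end final

end Pool.Agent.H17GT
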