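import Pool.Agent.H17GT.Base

/-!
# Extension of derivations along a transcendence basis
-/

open MvPolynomial

noncomputable section

namespace Pool.Agent.H17GT

namespace ExtAux

/-- dual numbers -/
def DN (L : Type*) : Type _ := TrivSqZeroExt L L

instance (L : Type*) [Field L] : CommRing (DN L) :=
  inferInstanceAs (CommRing (TrivSqZeroExt L L))

section

variable {L : Type*} [Field L]

/-- the value -/
def val : DN L →+* L := (TrivSqZeroExt.fstHom L L L).toRingHom

/-- the derivative -/
def der (x : DN L) : L := TrivSqZeroExt.snd x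

lemma der_add (x y : DN L) : der (x + y) = der x + der y := rfl

lemma der_mul (x y : DN L) : der (x * y) = val x * der y + val y * der x := by
  have h := TrivSqZeroExt.snd_mul (R := L) (M := L) x y
  rw [smul_eq_mul, op_smul_eq_smul, smul_eq_mul] at h
  exact h

/-- a dual number -/
def mkDN (a b : L) : DN L := (TrivSqZeroExt.inl a + TrivSqZeroExt.inr b : TrivSqZeroExt L L)

lemma val_mk (a b : L) : val (mkDN a b) = a := by
  change TrivSqZeroExt.fst (TrivSqZeroExt.inl a + TrivSqZeroExt.inr b : TrivSqZeroExt L L) = a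
  simp

lemma der_mk (a b : L) : der (mkDN a b) = b := by
  change TrivSqZeroExt.snd (TrivSqZeroExt.inl a + TrivSqZeroExt.inr b : TrivSqZeroExt L L) = b
  simp

lemma dn_ext {x y : DN L} (h1 : val x = val y) (h2 : der x = der y) : x = y :=
  TrivSqZeroExt.ext h1 h2

lemma val_surjective : Function.Surjective (val : DN L →+* L) := fun a => ⟨mkDN a 0, val_mk a 0⟩

lemma der_one : der (1 : DN L) = 0 := by
  change TrivSqZeroExt.snd (1 : TrivSqZeroExt L L) = 0
  simp

lemma der_zero : der (0 : DN L) = 0 := rfl

lemma ker_nilpotent : IsNilpotent (RingHom.ker (val : DN L →+* L)) := by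
  refine ⟨2, ?_⟩
  rw [pow_two, Ideal.zero_eq_bot, eq_bot_iff, Ideal.mul_le]
  intro r hr s hs
  rw [Ideal.mem_bot]
  rw [RingHom.mem_ker] at hr hs
  refine dn_ext ?_ ?_
  · rw [map_mul, hr, zero_mul, map_zero]
  · rw [der_mul, hr, hs, zero_mul, zero_mul, add_zero, der_zero]

variable {k : Type*} [Field k] [Algebra k L]

/-- the homomorphism to dual numbers attached to a derivation -/
def toDN (D : Derivation ℤ k L) : k →+* DN L where
  toFun c := mkDN (algebraMap k L c) (D c)
  map_one' := by
    refine dn_ext ?_ ?_
    · rw [val_mk, map_one, map_one]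
    · rw [der_mk, der_one, D.map_one_eq_zero]
  map_mul' a b := by
    refine dn_ext ?_ ?_
    · rw [map_mul val, val_mk, val_mk, val_mk, map_mul]
    · rw [der_mul, der_mk, der_mk, der_mk, val_mk, val_mk, D.leibniz, Algebra.smul_def,
        Algebra.smul_def]
  map_zero' := by
    refine dn_ext ?_ ?_
    · rw [val_mk, map_zero, map_zero]
    · rw [der_mk, der_zero, map_zero]
  map_add' a b := by
    refine dn_ext ?_ ?_
    · rw [map_add val, val_mk, val_mk, val_mk, map_add]
    · rw [der_add, der_mk, der_mk, der_mk, map_add]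

/-- extension of derivations along a formally étale map -/
theorem exists_der_of_etale {S : Type*} [CommRing S] [Algebra S L] [Algebra.FormallyEtale S L]
    (φ : S →+* DN L) (hφ : ∀ s, val (φ s) = algebraMap S L s) :
    ∃ D' : Derivation ℤ L L, ∀ s, D' (algebraMap S L s) = der (φ s) := by
  let : Algebra S (DN L) := φ.toAlgebra
  let g : DN L →ₐ[S] L := { val with commutes' := fun s => hφ s }
  have hg : Function.Surjective g := val_surjective
  have hg' : IsNilpotent (RingHom.ker g) := ker_nilpotent
  let h := Algebra.FormallySmooth.liftOfSurjective (AlgHom.id S L) g hg hg'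
  have hh : ∀ x, val (h x) = x := fun x =>
    Algebra.FormallySmooth.liftOfSurjective_apply (AlgHom.id S L) g hg hg' x
  refine ⟨Derivation.mk' (AddMonoidHom.toIntLinearMap
    { toFun := fun x => der (h x)
      map_zero' := by rw [map_zero, der_zero]
      map_add' := fun x y => by rw [map_add, der_add] }) ?_, ?_⟩
  · intro x y
    change der (h (x * y)) = x • der (h y) + y • der (h x)
    rw [map_mul, der_mul, hh, hh, smul_eq_mul, smul_eq_mul]
  · intro s
    change der (h (algebraMap S L s)) = _
    rw [AlgHom.commutes]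
    rfl

open scoped IntermediateField.algebraAdjoinAdjoin in
theorem exists_ext_basis [CharZero k] {ι : Type*} {x : ι → L} (hx : IsTranscendenceBasis k x)
    (D : Derivation ℤ k L) (v : ι → L) :
    ∃ D' : Derivation ℤ L L, (∀ c, D' (algebraMap k L c) = D c) ∧ ∀ i, D' (x i) = v i := by
  classical
  have : CharZero L := charZero_of_injective_algebraMap (algebraMap k L).injective
  have : Algebra.IsAlgebraic (IntermediateField.adjoin k (Set.range x)) L := hx.isAlgebraic_field
  have e1 : Algebra.FormallyEtale (Algebra.adjoin k (Set.range x))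
      (IntermediateField.adjoin k (Set.range x)) :=
    Algebra.FormallyEtale.of_isLocalization
      (nonZeroDivisors (Algebra.adjoin k (Set.range x)))
  have e2 : Algebra.FormallyEtale (IntermediateField.adjoin k (Set.range x)) L :=
    Algebra.FormallyEtale.of_isSeparable _ L
  have e3 : Algebra.FormallyEtale (Algebra.adjoin k (Set.range x)) L :=
    Algebra.FormallyEtale.comp _ (IntermediateField.adjoin k (Set.range x)) _
  let : Algebra (MvPolynomial ι k) (Algebra.adjoin k (Set.range x)) :=
    hx.1.aevalEquiv.toRingHom.toAlgebra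
  let : Algebra (MvPolynomial ι k) L := (MvPolynomial.aeval x).toRingHom.toAlgebra
  have t1 : IsScalarTower (MvPolynomial ι k) (Algebra.adjoin k (Set.range x)) L :=
    IsScalarTower.of_algebraMap_eq' rfl
  have e4 : Algebra.FormallyEtale (MvPolynomial ι k) (Algebra.adjoin k (Set.range x)) :=
    Algebra.FormallyEtale.of_equiv (R := MvPolynomial ι k) (A := MvPolynomial ι k)
      (AlgEquiv.ofRingEquiv (f := hx.1.aevalEquiv.toRingEquiv) (fun r => rfl))
  have e5 : Algebra.FormallyEtale (MvPolynomial ι k) L :=
    Algebra.FormallyEtale.comp _ (Algebra.adjoin k (Set.range x)) _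
  let φ : MvPolynomial ι k →+* DN L := MvPolynomial.eval₂Hom (toDN D) fun i => mkDN (x i) (v i)
  have hφ : ∀ s, val (φ s) = algebraMap (MvPolynomial ι k) L s := by
    intro s
    have h1 : val.comp φ = (MvPolynomial.aeval x).toRingHom := by
      refine MvPolynomial.ringHom_ext (fun c => ?_) (fun i => ?_)
      · change val (φ (C c)) = MvPolynomial.aeval x (C c)
        rw [MvPolynomial.eval₂Hom_C, aeval_C]
        exact val_mk _ _
      · change val (φ (X i)) = MvPolynomial.aeval x (X i)
        rw [MvPolynomial.eval₂Hom_X', aeval_X]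
        exact val_mk _ _
    exact congrArg (fun f => f s) h1
  obtain ⟨D', hD'⟩ := exists_der_of_etale φ hφ
  refine ⟨D', fun c => ?_, fun i => ?_⟩
  · have h1 := hD' (C c)
    have h2 : algebraMap (MvPolynomial ι k) L (C c) = algebraMap k L c := by
      change MvPolynomial.aeval x (C c) = _
      rw [aeval_C]
    rw [← h2, h1, MvPolynomial.eval₂Hom_C]
    exact der_mk _ _
  · have h1 := hD' (X i)
    have h2 : algebraMap (MvPolynomial ι k) L (X i) = x i := by
      change MvPolynomial.aeval x (X i) = _
      rw [aeval_X]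
    rw [← h2, h1, MvPolynomial.eval₂Hom_X']
    exact der_mk _ _

theorem exists_ext_indep [CharZero k] {ι : Type*} {z : ι → L} (hz : AlgebraicIndependent k z)
    (D : Derivation ℤ k L) (v : ι → L) :
    ∃ D' : Derivation ℤ L L, (∀ c, D' (algebraMap k L c) = D c) ∧ ∀ i, D' (z i) = v i := by
  classical
  obtain ⟨t, hzt, ht⟩ := exists_isTranscendenceBasis_superset (s := Set.range z) hz.coe_range
  have hinj : Function.Injective z := hz.injective
  obtain ⟨D', h1, h2⟩ := exists_ext_basis ht D fun y : t =>
    if h : ∃ i, z i = (y : L) then v h.choose else 0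
  refine ⟨D', h1, fun i => ?_⟩
  have h3 := h2 ⟨z i, hzt ⟨i, rfl⟩⟩
  have h4 : ∃ j, z j = z i := ⟨i, rfl⟩
  simp only at h3
  rw [dif_pos h4] at h3
  rw [h3, hinj h4.choose_spec]

end

end ExtAux

theorem exists_der_of_algebraicIndependent {F : Type*} [Field F] [Algebra F ℂ] {ι : Type*}
    {b : ι → ℂ} (hb : AlgebraicIndependent F b) (v : ι → ℂ) :
    ∃ D : Derivation F ℂ ℂ, ∀ i, D (b i) = v i := by
  have : CharZero F := by
    have h := (algebraMap F ℂ).charZero
    exact h
  obtain ⟨D', h1, h2⟩ := ExtAux.exists_ext_indep hb (0 : Derivation ℤ F ℂ) v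
  let E : ℂ →ₗ[F] ℂ :=
    { toFun := fun x => D' x
      map_add' := fun x y => map_add _ _ _
      map_smul' := fun c x => by
        rw [Algebra.smul_def, D'.leibniz, h1]
        simp [Algebra.smul_def] }
  exact ⟨Derivation.mk' E fun x y => D'.leibniz x y, fun i => h2 i⟩

theorem exists_ext_values {K : Type} [Field K] [Algebra ℂ K] {ι : Type*} {z : ι → K}
    (hz : AlgebraicIndependent ℂ z)
    (D : Derivation ℤ ℂ ℂ) (v : ι → K) :
    ∃ D' : Derivation ℤ K K, Ext D D' ∧ ∀ i, D' (z i) = v i := by
  let D₁ : Derivation ℤ ℂ K := Derivation.mk' (AddMonoidHom.toIntLinearMap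
    { toFun := fun x => algebraMap ℂ K (D x)
      map_zero' := by rw [map_zero, map_zero]
      map_add' := fun x y => by rw [map_add, map_add] }) fun x y => by
    change algebraMap ℂ K (D (x * y)) = x • algebraMap ℂ K (D y) + y • algebraMap ℂ K (D x)
    rw [D.leibniz, map_add, smul_eq_mul, smul_eq_mul, map_mul, map_mul, Algebra.smul_def,
      Algebra.smul_def]
  obtain ⟨D', h1, h2⟩ := ExtAux.exists_ext_indep hz D₁ v
  exact ⟨D', h1, h2⟩

end Pool.Agent.H17GT
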