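import Pool.Agent.H23.Defs

/-!
# Varieties of general type, in terms of their function field
-/

open MvPolynomial
open Pool.Agent.H23 (RatForm regularForms PrimeDivisorOver)

noncomputable section

namespace Pool.Agent.H17GT

section FunctionField

variable {K : Type} [Field K] [Algebra ℂ K] {k : ℕ}

/-- Let `K` be the function field of a variety of dimension `k`, let `ω` be a rational `k`-form and
`f ∈ K`. The rational `m`-canonical form `f ω^m` is regular along the prime divisor `E`: one has
`ω = g η` with `η` regular along `E` and `f g ^ m` regular along `E`. -/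
def RegularAlong (E : PrimeDivisorOver K k) (m : ℕ) (f : K) (ω : RatForm K k) : Prop :=
  ∃ (g : K) (η : RatForm K k), η ∈ regularForms k E.localRing ∧ ω = g • η ∧ 0 ≤ E.ord (f * g ^ m)

variable (K k) in
/-- A variety of dimension `k` with function field `K` is of general type: for some `m ≥ 1` there
are `m`-canonical forms `f₀ ω^m, …, f_r ω^m`, regular along all prime divisors, which define a
generically finite rational map, that is, `K` is algebraic over `ℂ(f₁/f₀, …, f_r/f₀)`. -/
def IsGeneralType : Prop :=
  ∃ m : ℕ, 1 ≤ m ∧ ∃ ω : RatForm K k, ω ≠ 0 ∧ ∃ (r : ℕ) (f : Fin (r + 1) → K), f 0 ≠ 0 ∧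
    (∀ i, ∀ E : PrimeDivisorOver K k, RegularAlong E m (f i) ω) ∧
    Algebra.IsAlgebraic (IntermediateField.adjoin ℂ (Set.range fun i => f i / f 0)) K

end FunctionField

/-- The coordinate function `x_i` in the fraction field of the homogeneous coordinate ring. -/
def coordFun {N : ℕ} (P : Ideal (MvPolynomial (Fin (N + 1)) ℂ)) [P.IsPrime] (i : Fin (N + 1)) :
    FractionRing (MvPolynomial (Fin (N + 1)) ℂ ⧸ P) :=
  algebraMap (MvPolynomial (Fin (N + 1)) ℂ ⧸ P) _ (Ideal.Quotient.mk P (X i))

/-- The function field of the closed subvariety of `ℙ^N` given by the homogeneous prime ideal `P`: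
the field generated over `ℂ` by the functions `x_i / x_j`. -/
def functionField {N : ℕ} (P : Ideal (MvPolynomial (Fin (N + 1)) ℂ)) [P.IsPrime] :
    IntermediateField ℂ (FractionRing (MvPolynomial (Fin (N + 1)) ℂ ⧸ P)) :=
  IntermediateField.adjoin ℂ {y | ∃ i j, y = coordFun P i / coordFun P j}

/-- Every closed subvariety of dimension at least `k₀` of the common zero locus `X` of the forms
`G l` is of general type. Closed subvarieties correspond to homogeneous prime ideals which contain the
forms `G l`, and their dimension `k` is the transcendence degree of their function field. -/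
def AllGeneralType {N c : ℕ} (G : Fin c → MvPolynomial (Fin (N + 1)) ℂ) (k₀ : ℕ) : Prop :=
  ∀ (P : Ideal (MvPolynomial (Fin (N + 1)) ℂ)) [P.IsPrime],
    (∀ p ∈ P, ∀ n, homogeneousComponent n p ∈ P) → (∀ l, G l ∈ P) → ∀ k, k₀ ≤ k →
      (∃ z : Fin k → functionField P, IsTranscendenceBasis ℂ z) → IsGeneralType (functionField P) k

/-- The coefficients of the forms `G l` of degree `d l` are algebraically independent over `ℚ`. -/
def GenericCoefficients {N c : ℕ} (d : Fin c → ℕ) (G : Fin c → MvPolynomial (Fin (N + 1)) ℂ) :
    Prop :=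
  AlgebraicIndependent ℚ
    (fun q : {q : Fin c × (Fin (N + 1) →₀ ℕ) // q.2.degree = d q.1} => (G q.1.1).coeff q.1.2)

end Pool.Agent.H17GT
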