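import Pool.Agent.H17GT.Base

/-!
# The certificate of smoothness
-/

open MvPolynomial

noncomputable section

namespace Pool.Agent.H17GT

/-- A matrix with independent rows has a nonzero maximal minor. -/
private lemma cert_exists_minor {c M : ℕ} (v : Fin c → Fin M → ℂ) (hv : LinearIndependent ℂ v) :
    ∃ I : Fin c → Fin M, Matrix.det (Matrix.of fun l m => v l (I m)) ≠ 0 := by
  classical
  set A : Matrix (Fin c) (Fin M) ℂ := Matrix.of v with hA
  have hrank : A.rank = c := by
    have h1 := LinearIndependent.rank_matrix (M := A) hv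
    simpa using h1
  have hspan : Submodule.span ℂ (Set.range A.col) = ⊤ := by
    apply Submodule.eq_top_of_finrank_eq
    rw [← Matrix.rank_eq_finrank_span_cols, hrank]
    simp
  obtain ⟨κ, a, ha, hsp, hli⟩ := exists_linearIndependent' ℂ A.col
  rw [hspan] at hsp
  let b := Module.Basis.mk hli hsp.ge
  have : Fintype κ := FiniteDimensional.fintypeBasisIndex b
  have hcard : Fintype.card κ = c := by
    have h1 := Module.finrank_eq_card_basis b
    simpa using h1.symm
  let e : Fin c ≃ κ := (Fintype.equivFinOfCardEq hcard).symm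
  refine ⟨a ∘ e, ?_⟩
  have h2 : LinearIndependent ℂ (fun m => A.col (a (e m))) := hli.comp e e.injective
  have h3 : LinearIndependent ℂ (Matrix.of fun l m => v l ((a ∘ e) m)).col := h2
  rw [Matrix.linearIndependent_cols_iff_isUnit] at h3
  exact ((Matrix.isUnit_iff_isUnit_det _).mp h3).ne_zero

theorem certificate_of_smooth {N c : ℕ} {G : Fin c → MvPolynomial (Fin (N + 1)) ℂ}
    (hsm : H17.SmoothIntersection G) : Certificate G := by
  classical
  intro j
  set F : Fin c ⊕ (Fin c → Fin (N + 1)) → MvPolynomial (Fin (N + 1)) ℂ :=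
    Sum.elim G fun I => Matrix.det (Matrix.of fun l m => pderiv (I m) (G l)) with hF
  have h1 : X j ∈ (Ideal.span (Set.range F)).radical := by
    rw [← MvPolynomial.vanishingIdeal_zeroLocus_eq_radical (k := ℂ) (K := ℂ)]
    rw [MvPolynomial.mem_vanishingIdeal_iff]
    intro x hx
    rw [MvPolynomial.mem_zeroLocus_iff] at hx
    have hx0 : x = 0 := by
      by_contra hne
      have h2 := hsm x hne fun l => by
        have h3 := hx (G l) (Ideal.subset_span ⟨Sum.inl l, rfl⟩)
        simpa [MvPolynomial.aeval_eq_eval] using h3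
      obtain ⟨I, hI⟩ := cert_exists_minor _ h2
      apply hI
      have h4 := hx (F (Sum.inr I)) (Ideal.subset_span ⟨Sum.inr I, rfl⟩)
      simp only [hF, Sum.elim_inr] at h4
      rw [AlgHom.map_det] at h4
      rw [← h4]
      congr 1
    simp [hx0]
  obtain ⟨M, hM⟩ := h1
  rw [Ideal.mem_span_range_iff_exists_fun] at hM
  obtain ⟨a, ha⟩ := hM
  refine ⟨M, fun l => a (Sum.inl l), fun I => a (Sum.inr I), ?_⟩
  rw [← ha, Fintype.sum_sum_type]
  rfl

end Pool.Agent.H17GT
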