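import Pool.Agent.H17GT.Base

/-!
# Determinants and a linear map vanishing on a part of the rows
-/

noncomputable section

namespace Pool.Agent.H17GT

private theorem det_mul_det_aux {K : Type*} [Field K] {τ γ σ : Type*} [Fintype τ] [Fintype γ]
    [Fintype σ] [DecidableEq τ] [DecidableEq γ] [DecidableEq σ] (e : τ ⊕ γ ≃ σ)
    (J : (σ → K) →ₗ[K] (γ → K)) (t : τ → σ → K) (ht : ∀ i, J (t i) = 0) (ν ν' : γ → σ → K)
    (h0 : Matrix.det (Matrix.of fun i j => Sum.elim t ν (e.symm i) j) ≠ 0) :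
    Matrix.det (Matrix.of fun i j => Sum.elim t ν (e.symm i) j) *
        Matrix.det (Matrix.of fun a b => J (ν' a) b) =
      Matrix.det (Matrix.of fun i j => Sum.elim t ν' (e.symm i) j) *
        Matrix.det (Matrix.of fun a b => J (ν a) b) := by
  set P : Matrix (τ ⊕ γ) (τ ⊕ γ) K := Matrix.of fun s s' => Sum.elim t ν s (e s') with hP
  set P' : Matrix (τ ⊕ γ) (τ ⊕ γ) K := Matrix.of fun s s' => Sum.elim t ν' s (e s') with hP'
  have e1 : Matrix.det (Matrix.of fun i j => Sum.elim t ν (e.symm i) j) = P.det := by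
    rw [← Matrix.det_submatrix_equiv_self e]
    congr 1
    ext s s'
    simp [hP]
  have e2 : Matrix.det (Matrix.of fun i j => Sum.elim t ν' (e.symm i) j) = P'.det := by
    rw [← Matrix.det_submatrix_equiv_self e]
    congr 1
    ext s s'
    simp [hP']
  rw [e1] at h0
  rw [e1, e2]
  have hu : IsUnit P.det := isUnit_iff_ne_zero.2 h0
  set C := P' * P⁻¹ with hC
  have hCP : C * P = P' := by
    rw [hC, Matrix.mul_assoc, Matrix.nonsing_inv_mul _ hu, Matrix.mul_one]
  have hrow : ∀ i s, C (Sum.inl i) s = (1 : Matrix (τ ⊕ γ) (τ ⊕ γ) K) (Sum.inl i) s := by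
    intro i s
    rw [← Matrix.mul_nonsing_inv _ hu, hC, Matrix.mul_apply, Matrix.mul_apply]
    rfl
  have hblock : C = Matrix.fromBlocks 1 0 C.toBlocks₂₁ C.toBlocks₂₂ := by
    ext s s'
    rcases s with i | a
    · rcases s' with i' | a'
      · rw [hrow, Matrix.fromBlocks_apply₁₁, Matrix.one_apply, Matrix.one_apply]
        simp
      · rw [hrow, Matrix.fromBlocks_apply₁₂, Matrix.one_apply]
        simp
    · rcases s' with i' | a'
      · rw [Matrix.fromBlocks_apply₂₁]
        rfl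
      · rw [Matrix.fromBlocks_apply₂₂]
        rfl
  have hdetC : C.det = C.toBlocks₂₂.det := by
    conv_lhs => rw [hblock]
    rw [Matrix.det_fromBlocks_zero₁₂, Matrix.det_one, one_mul]
  have hν : ∀ a, ν' a = ∑ i, C.toBlocks₂₁ a i • t i + ∑ b, C.toBlocks₂₂ a b • ν b := by
    intro a
    funext j
    have h1 : P' (Sum.inr a) (e.symm j) = (C * P) (Sum.inr a) (e.symm j) := by rw [hCP]
    rw [Matrix.mul_apply, Fintype.sum_sum_type] at h1
    simp only [hP, hP', Matrix.of_apply, Sum.elim_inl, Sum.elim_inr, Equiv.apply_symm_apply] at h1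
    rw [h1]
    simp only [Pi.add_apply, Finset.sum_apply, Pi.smul_apply, smul_eq_mul]
    rfl
  have hJ : (Matrix.of fun a b => J (ν' a) b) =
      C.toBlocks₂₂ * (Matrix.of fun a b => J (ν a) b) := by
    ext a b
    rw [Matrix.of_apply, hν a, map_add, map_sum, map_sum, Matrix.mul_apply]
    simp only [map_smul, ht, smul_zero, Finset.sum_const_zero, zero_add, Finset.sum_apply,
      Pi.smul_apply, smul_eq_mul, Matrix.of_apply]
  rw [hJ, Matrix.det_mul, ← hCP, Matrix.det_mul, hdetC]
  ring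

theorem det_mul_det {K : Type*} [Field K] {τ γ σ : Type*} [Fintype τ] [Fintype γ] [Fintype σ]
    [DecidableEq τ] [DecidableEq γ] [DecidableEq σ] (e : τ ⊕ γ ≃ σ)
    (J : (σ → K) →ₗ[K] (γ → K)) (t : τ → σ → K) (ht : ∀ i, J (t i) = 0) (ν ν' : γ → σ → K) :
    Matrix.det (Matrix.of fun i j => Sum.elim t ν (e.symm i) j) *
        Matrix.det (Matrix.of fun a b => J (ν' a) b) =
      Matrix.det (Matrix.of fun i j => Sum.elim t ν' (e.symm i) j) *
        Matrix.det (Matrix.of fun a b => J (ν a) b) := by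
  by_cases h0 : Matrix.det (Matrix.of fun i j => Sum.elim t ν (e.symm i) j) = 0
  · by_cases h1 : Matrix.det (Matrix.of fun i j => Sum.elim t ν' (e.symm i) j) = 0
    · rw [h0, h1, zero_mul, zero_mul]
    · exact (det_mul_det_aux e J t ht ν' ν h1).symm
  · exact det_mul_det_aux e J t ht ν ν' h0

end Pool.Agent.H17GT
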