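import Pool.Agent.H17GT.Base
import Pool.Agent.H17GT.ModDET

/-!
# The canonical form attached to good derivations
-/

open MvPolynomial
open Pool.Agent.H23 (RatForm regularForms PrimeDivisorOver dualDer fc)

noncomputable section

namespace Pool.Agent.H17GT

namespace FormX

variable {K : Type} [Field K] [Algebra ℂ K]

/-! ### polynomials -/

lemma aeval_scale {σ : Type*} {n : ℕ} {P : MvPolynomial σ ℂ} (hP : P.IsHomogeneous n) (s : K)
    (y : σ → K) : aeval (fun i => s * y i) P = s ^ n * aeval y P := by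
  conv_lhs => rw [P.as_sum]
  conv_rhs => rw [P.as_sum]
  rw [map_sum, map_sum, Finset.mul_sum]
  refine Finset.sum_congr rfl fun m hm => ?_
  have hd : m.degree = n := by
    by_contra h
    exact (mem_support_iff.1 hm) (hP.coeff_eq_zero h)
  rw [aeval_monomial, aeval_monomial]
  have h1 : (m.prod fun i k => (s * y i) ^ k) = s ^ n * m.prod fun i k => y i ^ k := by
    rw [Finsupp.prod, Finsupp.prod]
    simp only [mul_pow]
    rw [Finset.prod_mul_distrib, Finset.prod_pow_eq_pow_sum, ← hd]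
    rfl
  rw [h1]
  ring

lemma der_aeval_complex {σ : Type*} [Fintype σ] (η : Derivation ℂ K K) (x : σ → K)
    (P : MvPolynomial σ ℂ) : η (aeval x P) = ∑ i, aeval x (pderiv i P) * η (x i) := by
  classical
  induction P using MvPolynomial.induction_on with
  | C a => simp
  | add p q hp hq =>
    simp only [map_add, hp, hq, add_mul, Finset.sum_add_distrib]
  | mul_X p i hp =>
    rw [map_mul, aeval_X, Derivation.leibniz, hp, smul_eq_mul, smul_eq_mul, Finset.mul_sum]
    have h1 : ∀ j, aeval x (pderiv j (p * X i)) * η (x j) =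
        x i * (aeval x (pderiv j p) * η (x j)) + aeval x p * (if j = i then η (x j) else 0) := by
      intro j
      rw [Derivation.leibniz, smul_eq_mul, smul_eq_mul, map_add, map_mul, map_mul, aeval_X,
        pderiv_X, Pi.single_apply]
      split_ifs with h1 h2 h2
      · rw [map_one]; ring
      · exact absurd h1.symm h2
      · exact absurd h2.symm h1
      · rw [map_zero]; ring
    rw [Finset.sum_congr rfl fun j _ => h1 j, Finset.sum_add_distrib, ← Finset.mul_sum,
      ← Finset.mul_sum, Finset.sum_ite_eq' Finset.univ i, if_pos (Finset.mem_univ i)]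
    ring

lemma jac_apply {N c : ℕ} (G : Fin c → MvPolynomial (Fin (N + 1)) ℂ) (x v : Fin (N + 1) → K)
    (l : Fin c) : jac G x v l = ∑ i, aeval x (pderiv i (G l)) * v i := by
  rw [jac, Matrix.mulVecLin_apply]
  rfl

lemma jac_self {N c : ℕ} {d : Fin c → ℕ} {G : Fin c → MvPolynomial (Fin (N + 1)) ℂ}
    (hG : ∀ l, (G l).IsHomogeneous (d l)) {x : Fin (N + 1) → K} (hGx : ∀ l, aeval x (G l) = 0) :
    jac G x x = 0 := by
  funext l
  rw [jac_apply]
  have h := congrArg (aeval x) (hG l).sum_X_mul_pderiv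
  rw [map_sum, map_nsmul, hGx l, smul_zero] at h
  simp only [map_mul, aeval_X] at h
  rw [Pi.zero_apply, ← h]
  exact Finset.sum_congr rfl fun i _ => mul_comm _ _

lemma jac_der {N c : ℕ} {G : Fin c → MvPolynomial (Fin (N + 1)) ℂ}
    {x : Fin (N + 1) → K} (hGx : ∀ l, aeval x (G l) = 0) (η : Derivation ℂ K K) :
    jac G x (fun i => η (x i)) = 0 := by
  funext l
  rw [jac_apply, ← der_aeval_complex, hGx l, map_zero]
  rfl

lemma jac_scale {N c : ℕ} {d : Fin c → ℕ} {G : Fin c → MvPolynomial (Fin (N + 1)) ℂ}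
    (hG : ∀ l, (G l).IsHomogeneous (d l)) (s : K) (y v : Fin (N + 1) → K) (l : Fin c) :
    jac G (fun i => s * y i) v l = s ^ (d l - 1) * jac G y v l := by
  rw [jac_apply, jac_apply, Finset.mul_sum]
  refine Finset.sum_congr rfl fun i _ => ?_
  rw [aeval_scale (hG l).pderiv]
  ring

/-- The maximal minor with columns `I`. -/
def minor {N c : ℕ} (G : Fin c → MvPolynomial (Fin (N + 1)) ℂ) (y : Fin (N + 1) → K)
    (I : Fin c → Fin (N + 1)) : K :=
  Matrix.det (Matrix.of fun a b => jac G y (Pi.single (I a) 1) b)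

lemma minor_eq {N c : ℕ} (G : Fin c → MvPolynomial (Fin (N + 1)) ℂ) (y : Fin (N + 1) → K)
    (I : Fin c → Fin (N + 1)) :
    aeval y (Matrix.det (Matrix.of fun l m => pderiv (I m) (G l))) = minor G y I := by
  rw [minor, AlgHom.map_det, ← Matrix.det_transpose]
  congr 1
  ext l m
  simp [jac_apply, Pi.single_apply]

lemma cert_eval {N c : ℕ} {G : Fin c → MvPolynomial (Fin (N + 1)) ℂ} (hcert : Certificate G)
    {y : Fin (N + 1) → K} (hGy : ∀ l, aeval y (G l) = 0) (j : Fin (N + 1)) :
    ∃ (M : ℕ) (B : (Fin c → Fin (N + 1)) → MvPolynomial (Fin (N + 1)) ℂ),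
      y j ^ M = ∑ I, aeval y (B I) * minor G y I := by
  obtain ⟨M, A, B, h⟩ := hcert j
  refine ⟨M, B, ?_⟩
  have h1 := congrArg (aeval y) h
  rw [map_pow, aeval_X, map_add, map_sum, map_sum] at h1
  rw [h1]
  have h2 : ∑ l, aeval y (A l * G l) = 0 := Finset.sum_eq_zero fun l _ => by
    rw [map_mul, hGy l, mul_zero]
  rw [h2, zero_add]
  refine Finset.sum_congr rfl fun I _ => ?_
  rw [map_mul, minor_eq]

/-! ### determinants of families of rows -/

variable {ι σ : Type*} [Fintype ι] [Fintype σ] [DecidableEq ι] [DecidableEq σ]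

/-- determinant of the rows `A`. -/
def rdet (e : ι ≃ σ) (A : ι → σ → K) : K := Matrix.det (Matrix.of fun i j => A (e.symm i) j)

omit [Algebra ℂ K] in
lemma rdet_mul (e : ι ≃ σ) (L : Matrix ι ι K) (A A' : ι → σ → K)
    (h : ∀ s, A' s = ∑ s', L s s' • A s') : rdet e A' = L.det * rdet e A := by
  have e1 : ∀ A : ι → σ → K, rdet e A = Matrix.det (Matrix.of fun s s' => A s (e s')) := by
    intro A
    rw [rdet, ← Matrix.det_submatrix_equiv_self e]
    congr 1
    ext s s'
    simp
  rw [e1, e1, ← Matrix.det_mul]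
  congr 1
  ext s s'
  rw [Matrix.of_apply, h s, Matrix.mul_apply]
  simp [Finset.sum_apply]

/-- The family `x, D'_i x, η_j x`. -/
def fam {N r k : ℕ} (x : Fin (N + 1) → K) (D' : Fin r → Derivation ℤ K K)
    (η : Fin (k + 1) → Derivation ℂ K K) : Unit ⊕ (Fin r ⊕ Fin (k + 1)) → Fin (N + 1) → K :=
  Sum.elim (fun _ => x) (Sum.elim (fun i j => D' i (x j)) fun i j => η i (x j))

/-- Change of the derivations `η`. -/
lemma rdet_change {N r k c : ℕ}
    (e : (Unit ⊕ (Fin r ⊕ Fin (k + 1))) ⊕ Fin c ≃ Fin (N + 1)) (x : Fin (N + 1) → K)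
    (D' : Fin r → Derivation ℤ K K) (η η' : Fin (k + 1) → Derivation ℂ K K)
    (ν : Fin c → Fin (N + 1) → K) (M : Matrix (Fin (k + 1)) (Fin (k + 1)) K)
    (h : ∀ i f, η' i f = ∑ j, M i j * η j f) :
    rdet e (Sum.elim (fam x D' η') ν) = M.det * rdet e (Sum.elim (fam x D' η) ν) := by
  rw [rdet_mul e (Matrix.fromBlocks (Matrix.fromBlocks 1 0 0 (Matrix.fromBlocks 1 0 0 M)) 0 0 1)
    (Sum.elim (fam x D' η) ν)]
  · rw [Matrix.det_fromBlocks_zero₁₂, Matrix.det_fromBlocks_zero₁₂, Matrix.det_fromBlocks_zero₁₂,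
      Matrix.det_one, Matrix.det_one, Matrix.det_one, one_mul, one_mul, mul_one]
  · rintro ((u | i | i) | m)
    · simp [Fintype.sum_sum_type, fam]
    · simp [Fintype.sum_sum_type, fam, Matrix.one_apply]
    · funext t
      simp [Fintype.sum_sum_type, fam, h]
    · simp [Fintype.sum_sum_type, fam, Matrix.one_apply]

/-- Change of the scale. -/
lemma rdet_scale {N r k c : ℕ}
    (e : (Unit ⊕ (Fin r ⊕ Fin (k + 1))) ⊕ Fin c ≃ Fin (N + 1)) (s : K) (y : Fin (N + 1) → K)
    (D' D'' : Fin r → Derivation ℤ K K) (η : Fin (k + 1) → Derivation ℂ K K)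
    (ν : Fin c → Fin (N + 1) → K) (w : Fin r → ℕ) (a : Fin r → Fin (k + 1) → K)
    (h : ∀ i f, D' i f = s ^ w i * (D'' i f + ∑ j, a i j * η j f)) :
    rdet e (Sum.elim (fam (fun i => s * y i) D' η) ν) =
      s ^ (1 + ∑ i, (w i + 1) + (k + 1)) * rdet e (Sum.elim (fam y D'' η) ν) := by
  rw [rdet_mul e (Matrix.fromBlocks (Matrix.fromBlocks (Matrix.of fun _ _ => s) 0
    (Matrix.of fun i _ => Sum.elim (fun i => D' i s) (fun j => η j s) i)
    (Matrix.fromBlocks (Matrix.diagonal fun i => s ^ (w i + 1))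
      (Matrix.of fun i j => s ^ (w i + 1) * a i j) 0 (Matrix.diagonal fun _ => s))) 0 0 1)
    (Sum.elim (fam y D'' η) ν)]
  · rw [Matrix.det_fromBlocks_zero₁₂, Matrix.det_fromBlocks_zero₁₂, Matrix.det_fromBlocks_zero₂₁,
      Matrix.det_one, Matrix.det_diagonal, Matrix.det_diagonal, mul_one,
      Finset.prod_pow_eq_pow_sum, Finset.prod_const, Finset.card_univ, Fintype.card_fin,
      Matrix.det_unique, Matrix.of_apply]
    ring
  · rintro ((u | i | i) | m)
    · funext t
      simp [Fintype.sum_sum_type, fam]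
    · funext t
      have h1 : D' i (s * y t) = s * D' i (y t) + y t * D' i s := by
        rw [Derivation.leibniz, smul_eq_mul, smul_eq_mul]
      simp only [Sum.elim_inl, fam, Sum.elim_inr, Fintype.sum_sum_type, Matrix.fromBlocks_apply₁₁,
        Matrix.fromBlocks_apply₂₁, Matrix.fromBlocks_apply₂₂, Matrix.fromBlocks_apply₁₂,
        Matrix.diagonal_apply, Matrix.of_apply, Finset.sum_apply, Pi.smul_apply,
        smul_eq_mul, h1, Finset.univ_unique, Finset.sum_singleton, Matrix.zero_apply, zero_mul,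
        Finset.sum_const_zero, add_zero, ite_mul, Finset.sum_ite_eq, Finset.mem_univ, if_true]
      rw [h i (y t), pow_succ, mul_add, Finset.mul_sum]
      have h2 : ∑ j, s ^ w i * s * a i j * η j (y t) = s * ∑ j, s ^ w i * (a i j * η j (y t)) := by
        rw [Finset.mul_sum]
        refine Finset.sum_congr rfl fun j _ => ?_
        ring
      rw [h2]
      ring
    · funext t
      have h1 : η i (s * y t) = s * η i (y t) + y t * η i s := by
        rw [Derivation.leibniz, smul_eq_mul, smul_eq_mul]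
      simp only [Sum.elim_inl, fam, Sum.elim_inr, Fintype.sum_sum_type, Matrix.fromBlocks_apply₁₁,
        Matrix.fromBlocks_apply₂₁, Matrix.fromBlocks_apply₂₂, Matrix.fromBlocks_apply₁₂,
        Matrix.diagonal_apply, Matrix.of_apply, Finset.sum_apply, Pi.smul_apply,
        smul_eq_mul, h1, Finset.univ_unique, Finset.sum_singleton, Matrix.zero_apply, zero_mul,
        Finset.sum_const_zero, add_zero, ite_mul, Finset.sum_ite_eq, Finset.mem_univ, if_true]
      ring
    · simp [Fintype.sum_sum_type, fam, Matrix.one_apply]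

/-! ### valuations -/

lemma aeval_mem {σ : Type*} (O : Subalgebra ℂ K) {y : σ → K} (hy : ∀ i, y i ∈ O)
    (P : MvPolynomial σ ℂ) : aeval y P ∈ O := by
  induction P using MvPolynomial.induction_on with
  | C a => rw [aeval_C]; exact O.algebraMap_mem a
  | add p q hp hq => rw [map_add]; exact O.add_mem hp hq
  | mul_X p i hp => rw [map_mul, aeval_X]; exact O.mul_mem hp (hy i)

lemma exists_unit_minor {N c k : ℕ} {G : Fin c → MvPolynomial (Fin (N + 1)) ℂ}
    (hcert : Certificate G) {y : Fin (N + 1) → K} (hGy : ∀ l, aeval y (G l) = 0)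
    (E : PrimeDivisorOver K (k + 1)) (hy : ∀ i, 0 ≤ E.ord (y i)) (j : Fin (N + 1))
    (hj : y j = 1) : ∃ I, E.ord (minor G y I) = 0 := by
  obtain ⟨M, B, h⟩ := cert_eval hcert hGy j
  rw [hj, one_pow] at h
  by_contra hcon
  push Not at hcon
  have hO : ∀ P : MvPolynomial (Fin (N + 1)) ℂ, 0 ≤ E.ord (aeval y P) := fun P =>
    aeval_mem E.localRing hy P
  have h1 : ∀ I ∈ (Finset.univ : Finset (Fin c → Fin (N + 1))),
      (0 : WithTop ℤ) < E.ord (aeval y (B I) * minor G y I) := by
    intro I _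
    rw [AddValuation.map_mul]
    have h2 : 0 < E.ord (minor G y I) := by
      refine lt_of_le_of_ne ?_ (hcon I).symm
      rw [← minor_eq]
      exact hO _
    exact lt_of_lt_of_le h2 (le_add_of_nonneg_left (hO _))
  have h3 := AddValuation.map_lt_sum E.ord (g := 0) (by simp) h1
  rw [← h, AddValuation.map_one] at h3
  exact lt_irrefl _ h3

lemma der_eq_sum {n : ℕ} (b : Module.Basis (Fin n) K Ω[K⁄ℂ]) {g : Fin n → K}
    (hb : ∀ i, b i = KaehlerDifferential.D ℂ K (g i)) (γ : Derivation ℂ K K) (f : K) :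
    γ f = ∑ j, γ (g j) * dualDer b j f := by
  have h1 := b.sum_repr (KaehlerDifferential.D ℂ K f)
  have h2 := congrArg γ.liftKaehlerDifferential h1
  rw [map_sum, Derivation.liftKaehlerDifferential_comp_D] at h2
  rw [← h2]
  refine Finset.sum_congr rfl fun j _ => ?_
  rw [map_smul, hb j, Derivation.liftKaehlerDifferential_comp_D, smul_eq_mul, mul_comm,
    H23.dualDer_apply]

lemma dualDer_change {n : ℕ} (b b' : Module.Basis (Fin n) K Ω[K⁄ℂ]) (i : Fin n) (f : K) :
    dualDer b' i f = ∑ j, b'.toMatrix b i j * dualDer b j f := by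
  have h1 := b.sum_repr (KaehlerDifferential.D ℂ K f)
  have h2 := congrArg (b'.coord i) h1
  rw [map_sum] at h2
  rw [H23.dualDer_apply, ← Module.Basis.coord_apply, ← h2]
  refine Finset.sum_congr rfl fun j _ => ?_
  rw [map_smul, smul_eq_mul, mul_comm, H23.dualDer_apply, Module.Basis.toMatrix_apply,
    Module.Basis.coord_apply]

omit [Algebra ℂ K] in
lemma alg_id (s a b ρ m : K) (n A : ℕ) (hs : s ≠ 0) (hm : m ≠ 0) :
    ((s * a) * (s * b) ^ n) * ((s ^ A * ρ) / (s ^ (n + 1 + A) * m)) =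
      (a * b ^ n) * (ρ * m⁻¹) := by
  have h1 : s ^ (n + 1 + A) * m ≠ 0 := mul_ne_zero (pow_ne_zero _ hs) hm
  rw [← div_eq_mul_inv, mul_div_assoc', mul_div_assoc', div_eq_div_iff h1 hm]
  ring

/-- Regularity of the canonical form. -/
lemma regular {N c k r : ℕ} {d : Fin c → ℕ} (hd : ∀ l, 1 ≤ d l)
    {G : Fin c → MvPolynomial (Fin (N + 1)) ℂ}
    (hG : ∀ l, (G l).IsHomogeneous (d l)) (hcert : Certificate G) {x : Fin (N + 1) → K}
    (hx : x ≠ 0) (hGx : ∀ l, aeval x (G l) = 0)
    (w : Fin r → ℕ) (D' : Fin r → Derivation ℤ K K) (hgood : ∀ i, Good (k + 1) x (w i) (D' i))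
    (hker : ∀ i, jac G x (fun j => D' i (x j)) = 0)
    (e : (Unit ⊕ (Fin r ⊕ Fin (k + 1))) ⊕ Fin c ≃ Fin (N + 1))
    (hcard : 1 + r + (k + 1) + c = N + 1) {n : ℕ} (hdeg : N + 1 + ∑ i, w i + (n + 1) = ∑ l, d l)
    (ν₀ : Fin c → Fin (N + 1) → K)
    (hν₀ : Matrix.det (Matrix.of fun a b => jac G x (ν₀ a) b) ≠ 0)
    (E : PrimeDivisorOver K (k + 1)) {g : Fin (k + 1) → K}
    (b : Module.Basis (Fin (k + 1)) K Ω[K⁄ℂ]) (hb : ∀ i, b i = KaehlerDifferential.D ℂ K (g i))
    (hη : ∀ i f, 0 ≤ E.ord f → 0 ≤ E.ord (dualDer b i f)) (i₀ j₀ : Fin (N + 1)) :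
    0 ≤ E.ord ((x i₀ * x j₀ ^ n) * (rdet e (Sum.elim (fam x D' (dualDer b)) ν₀) /
      Matrix.det (Matrix.of fun a b => jac G x (ν₀ a) b))) := by
  obtain ⟨j₁, -, hj₁⟩ := Finset.exists_min_image (Finset.univ : Finset (Fin (N + 1)))
    (fun j => E.ord (x j)) Finset.univ_nonempty
  set s := x j₁ with hs
  have hs0 : s ≠ 0 := by
    intro h0
    apply hx
    funext j
    have h1 := hj₁ j (Finset.mem_univ j)
    rw [h0, AddValuation.map_zero, top_le_iff] at h1
    exact (AddValuation.top_iff E.ord).1 h1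
  set y : Fin (N + 1) → K := fun i => x i / s with hy
  have hxy : x = fun i => s * y i := by
    funext i
    rw [hy]
    field_simp
  have hyO : ∀ i, 0 ≤ E.ord (x i / s) := by
    intro i
    have h1 := hj₁ i (Finset.mem_univ i)
    by_contra h2
    push Not at h2
    have h3 : E.ord (x i) = E.ord (x i / s) + E.ord s := by
      rw [← AddValuation.map_mul, div_mul_cancel₀ _ hs0]
    have h4 : E.ord s ≠ ⊤ := (AddValuation.ne_top_iff E.ord).2 hs0
    have h5 : E.ord (x i / s) + E.ord s < 0 + E.ord s := WithTop.add_lt_add_right h4 h2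
    rw [← h3, zero_add] at h5
    exact absurd h1 (not_le.2 h5)
  choose D'' γ hD'' hγ using fun i => hgood i E s hs0 hyO
  have hGy : ∀ l, aeval y (G l) = 0 := by
    intro l
    have h1 := hGx l
    rw [hxy, aeval_scale (hG l)] at h1
    exact (mul_eq_zero.1 h1).resolve_left (pow_ne_zero _ hs0)
  have hyj : y j₁ = 1 := by
    rw [hy]
    exact div_self hs0
  obtain ⟨I, hI⟩ := exists_unit_minor hcert hGy E hyO j₁ hyj
  set ν : Fin c → Fin (N + 1) → K := fun a => Pi.single (I a) 1 with hν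
  have hm0 : minor G y I ≠ 0 := by
    intro h0
    rw [h0, AddValuation.map_zero] at hI
    exact absurd hI (by simp)
  -- the determinant of the Jacobian
  have hJν : Matrix.det (Matrix.of fun a b => jac G x (ν a) b) =
      s ^ (∑ l, (d l - 1)) * minor G y I := by
    have h1 : (Matrix.of fun a b => jac G x (ν a) b) =
        Matrix.of fun a b => s ^ (d b - 1) * (Matrix.of fun a b => jac G y (ν a) b) a b := by
      ext a b
      rw [Matrix.of_apply, Matrix.of_apply, Matrix.of_apply]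
      conv_lhs => rw [hxy]
      exact jac_scale hG s y (ν a) b
    rw [h1, Matrix.det_mul_row, Finset.prod_pow_eq_pow_sum]
    rfl
  have hJν0 : Matrix.det (Matrix.of fun a b => jac G x (ν a) b) ≠ 0 := by
    rw [hJν]
    exact mul_ne_zero (pow_ne_zero _ hs0) hm0
  have hdet := det_mul_det e (jac G x) (fam x D' (dualDer b)) (by
    rintro (u | i | i)
    · exact jac_self hG hGx
    · exact hker i
    · exact jac_der hGx (dualDer b i)) ν₀ ν
  have hscale : rdet e (Sum.elim (fam x D' (dualDer b)) ν) =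
      s ^ (1 + ∑ i, (w i + 1) + (k + 1)) * rdet e (Sum.elim (fam y D'' (dualDer b)) ν) := by
    conv_lhs => rw [hxy]
    apply rdet_scale e s y D' D'' (dualDer b) ν w (fun i j => γ i (g j))
    intro i f
    rw [hγ i f, der_eq_sum b hb (γ i) f]
  have hexp : (n + 1) + (1 + ∑ i, (w i + 1) + (k + 1)) = ∑ l, (d l - 1) := by
    have h1 : ∑ l, (d l - 1) + c = ∑ l, d l := by
      have : ∑ l, d l = ∑ l, ((d l - 1) + 1) := Finset.sum_congr rfl fun l _ => by
        have := hd l
        omega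
      rw [this, Finset.sum_add_distrib, Finset.sum_const, Finset.card_univ, Fintype.card_fin,
        smul_eq_mul, mul_one]
    have h2 : ∑ i, (w i + 1) = ∑ i, w i + r := by
      rw [Finset.sum_add_distrib, Finset.sum_const, Finset.card_univ, Fintype.card_fin,
        smul_eq_mul, mul_one]
    omega
  have hmain : (x i₀ * x j₀ ^ n) * (rdet e (Sum.elim (fam x D' (dualDer b)) ν₀) /
      Matrix.det (Matrix.of fun a b => jac G x (ν₀ a) b)) =
      (y i₀ * y j₀ ^ n) * (rdet e (Sum.elim (fam y D'' (dualDer b)) ν) * (minor G y I)⁻¹) := by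
    have h1 : rdet e (Sum.elim (fam x D' (dualDer b)) ν₀) /
        Matrix.det (Matrix.of fun a b => jac G x (ν₀ a) b) =
        rdet e (Sum.elim (fam x D' (dualDer b)) ν) /
        Matrix.det (Matrix.of fun a b => jac G x (ν a) b) := by
      rw [div_eq_div_iff hν₀ hJν0]
      exact hdet
    rw [h1, hscale, hJν, ← hexp]
    have h2 : x i₀ = s * y i₀ := congrFun hxy i₀
    have h3 : x j₀ = s * y j₀ := congrFun hxy j₀
    rw [h2, h3]
    exact alg_id s (y i₀) (y j₀) _ _ n _ hs0 hm0
  rw [hmain]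
  have hO : ∀ i, y i ∈ E.localRing := hyO
  change _ ∈ E.localRing
  refine E.localRing.mul_mem (E.localRing.mul_mem (hO _) (E.localRing.pow_mem (hO _) n))
    (E.localRing.mul_mem ?_ ?_)
  · apply H23.det_mem
    intro i j
    rw [Matrix.of_apply]
    rcases e.symm i with (u | i | i) | m
    · exact hO j
    · exact hD'' i _ (hO j)
    · exact hη i _ (hO j)
    · change (Pi.single (I m) 1 : Fin (N + 1) → K) j ∈ E.localRing
      rw [Pi.single_apply]
      split_ifs
      · exact E.localRing.one_mem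
      · exact E.localRing.zero_mem
  · change 0 ≤ E.ord _
    rw [H23.val_inv E.ord hI]

end FormX

open FormX

variable {K : Type} [Field K] [Algebra ℂ K]

theorem isGeneralType_of_good [Algebra.EssFiniteType ℂ K] {N c k r : ℕ} {d : Fin c → ℕ}
    (hd : ∀ l, 1 ≤ d l) {G : Fin c → MvPolynomial (Fin (N + 1)) ℂ}
    (hG : ∀ l, (G l).IsHomogeneous (d l)) (hcert : Certificate G) {x : Fin (N + 1) → K}
    (hx : x ≠ 0) (hgen : IntermediateField.adjoin ℂ {y | ∃ i j, y = x i / x j} = ⊤)
    (hGx : ∀ l, aeval x (G l) = 0) {z : Fin (k + 1) → K} (hz : IsTranscendenceBasis ℂ z)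
    (w : Fin r → ℕ) (D' : Fin r → Derivation ℤ K K) (hgood : ∀ i, Good (k + 1) x (w i) (D' i))
    (hker : ∀ i, jac G x (fun j => D' i (x j)) = 0)
    (δ : Fin (k + 1) → Derivation ℂ K K)
    (hli : LinearIndependent K (Sum.elim (fun _ : Unit => x)
      (Sum.elim (fun i j => D' i (x j)) fun i j => δ i (x j))))
    (hcard : 1 + r + (k + 1) + c = N + 1) (hdeg : N + 1 + ∑ i, w i + 1 ≤ ∑ l, d l) :
    IsGeneralType K (k + 1) := by
  obtain ⟨b, hb⟩ := H23.exists_basis_kaehler hz
  let e : (Unit ⊕ (Fin r ⊕ Fin (k + 1))) ⊕ Fin c ≃ Fin (N + 1) := Fintype.equivOfCardEq (by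
    rw [Fintype.card_sum, Fintype.card_sum, Fintype.card_sum, Fintype.card_unit, Fintype.card_fin,
      Fintype.card_fin, Fintype.card_fin, Fintype.card_fin]
    omega)
  obtain ⟨j₀, hj₀⟩ : ∃ j, x j ≠ 0 := by
    by_contra hcon
    push Not at hcon
    exact hx (funext hcon)
  obtain ⟨I, hI⟩ : ∃ I, minor G x I ≠ 0 := by
    obtain ⟨M, B, h⟩ := cert_eval hcert hGx j₀
    by_contra hcon
    push Not at hcon
    have h1 : x j₀ ^ M = 0 := by
      rw [h]
      exact Finset.sum_eq_zero fun I _ => by rw [hcon I, mul_zero]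
    exact pow_ne_zero _ hj₀ h1
  set ν₀ : Fin c → Fin (N + 1) → K := fun a => Pi.single (I a) 1 with hν₀
  set Δ : K := Matrix.det (Matrix.of fun a b => jac G x (ν₀ a) b) with hΔ
  have hΔ0 : Δ ≠ 0 := hI
  obtain ⟨n, hn⟩ : ∃ n, N + 1 + ∑ i, w i + (n + 1) = ∑ l, d l :=
    ⟨∑ l, d l - (N + 1 + ∑ i, w i + 1), by omega⟩
  -- nonvanishing
  have hδ : rdet e (Sum.elim (fam x D' δ) ν₀) ≠ 0 := by
    have hB : LinearIndependent K (Sum.elim (fam x D' δ) ν₀) := by
      rw [Fintype.linearIndependent_iff]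
      intro a ha
      rw [Fintype.sum_sum_type] at ha
      simp only [Sum.elim_inl, Sum.elim_inr] at ha
      have hJ0 : ∀ t, jac G x (fam x D' δ t) = 0 := by
        rintro (u | i | i)
        · exact jac_self hG hGx
        · exact hker i
        · exact jac_der hGx (δ i)
      have h1 := congrArg (jac G x) ha
      rw [map_add, map_sum, map_sum, map_zero] at h1
      simp only [map_smul, hJ0, smul_zero, Finset.sum_const_zero, zero_add] at h1
      have h2 : Matrix.vecMul (fun m => a (Sum.inr m)) (Matrix.of fun a b => jac G x (ν₀ a) b) =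
          0 := by
        rw [← h1]
        funext l
        rw [Matrix.vecMul, dotProduct, Finset.sum_apply]
        rfl
      have h3 := Matrix.eq_zero_of_vecMul_eq_zero hΔ0 h2
      have h4 : ∀ m, a (Sum.inr m) = 0 := fun m => congrFun h3 m
      simp only [h4, zero_smul, Finset.sum_const_zero, add_zero] at ha
      have h5 := Fintype.linearIndependent_iff.1 hli (fun t => a (Sum.inl t)) ha
      rintro (t | m)
      · exact h5 t
      · exact h4 m
    have h2 : LinearIndependent K (Matrix.of fun i j => Sum.elim (fam x D' δ) ν₀ (e.symm i) j).row :=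
      hB.comp _ e.symm.injective
    rw [Matrix.linearIndependent_rows_iff_isUnit, Matrix.isUnit_iff_isUnit_det] at h2
    exact h2.ne_zero
  have hchg : rdet e (Sum.elim (fam x D' δ) ν₀) = (Matrix.of fun i j => δ i (z j)).det *
      rdet e (Sum.elim (fam x D' (dualDer b)) ν₀) :=
    rdet_change e x D' (dualDer b) δ ν₀ _ fun i f => der_eq_sum b hb (δ i) f
  have hR0 : rdet e (Sum.elim (fam x D' (dualDer b)) ν₀) ≠ 0 := by
    intro h0
    rw [h0, mul_zero] at hchg
    exact hδ hchg
  set R : K := rdet e (Sum.elim (fam x D' (dualDer b)) ν₀) / Δ with hR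
  have hRne : R ≠ 0 := div_ne_zero hR0 hΔ0
  refine ⟨1, le_rfl, R • exteriorPower.ιMulti K (k + 1) (fun i => b i), ?_, N + 1,
    Fin.cons (x j₀ * x j₀ ^ n) fun i => x i * x j₀ ^ n, ?_, ?_, ?_⟩
  · intro h0
    have h1 := congrArg (fc b) h0
    rw [map_smul, H23.fc_self, map_zero, smul_eq_mul, mul_one] at h1
    exact hRne h1
  · rw [Fin.cons_zero]
    exact mul_ne_zero hj₀ (pow_ne_zero _ hj₀)
  · intro i E
    obtain ⟨g, bE, hbE, -, hg, hη⟩ := H23.exists_divisorCoords hz E
    refine ⟨rdet e (Sum.elim (fam x D' (dualDer bE)) ν₀) / Δ,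
      exteriorPower.ιMulti K (k + 1) (fun i => bE i), ?_, ?_, ?_⟩
    · apply AddSubgroup.subset_closure
      refine ⟨1, g, E.localRing.one_mem, hg, ?_⟩
      rw [one_smul]
      simp only [hbE]
    · have h1 := H23.ιMulti_eq bE (fun i => b i)
      rw [h1, smul_smul]
      congr 1
      rw [rdet_change e x D' (dualDer b) (dualDer bE) ν₀ (bE.toMatrix b) fun i f =>
        dualDer_change b bE i f, hR, Module.Basis.det_apply]
      ring
    · rw [pow_one]
      refine Fin.cases ?_ (fun i => ?_) i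
      · rw [Fin.cons_zero]
        exact regular hd hG hcert hx hGx w D' hgood hker e hcard hn ν₀ hΔ0 E bE hbE hη j₀ j₀
      · rw [Fin.cons_succ]
        exact regular hd hG hcert hx hGx w D' hgood hker e hcard hn ν₀ hΔ0 E bE hbE hη i j₀
  · set F := IntermediateField.adjoin ℂ (Set.range fun i =>
      (Fin.cons (x j₀ * x j₀ ^ n) (fun i => x i * x j₀ ^ n) : Fin (N + 1 + 1) → K) i /
        (Fin.cons (x j₀ * x j₀ ^ n) (fun i => x i * x j₀ ^ n) : Fin (N + 1 + 1) → K) 0) with hF
    have hmem : ∀ i, x i / x j₀ ∈ F := by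
      intro i
      apply IntermediateField.subset_adjoin
      refine ⟨i.succ, ?_⟩
      simp only [Fin.cons_succ, Fin.cons_zero]
      rw [mul_div_mul_right _ _ (pow_ne_zero _ hj₀)]
    have htop : F = ⊤ := by
      rw [← top_le_iff, ← hgen, IntermediateField.adjoin_le_iff]
      rintro _ ⟨i, j, rfl⟩
      have h1 : x i / x j = (x i / x j₀) / (x j / x j₀) := by
        rw [div_div_div_cancel_right₀ hj₀]
      rw [h1]
      exact F.div_mem (hmem i) (hmem j)
    rw [htop]
    exact ⟨fun a => isAlgebraic_algebraMap (⟨a, trivial⟩ : (⊤ : IntermediateField ℂ K))⟩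

end Pool.Agent.H17GT
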