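import Pool.Agent.H17GT.Base

/-!
# Linear relations with coefficients in a subfield
-/

noncomputable section

namespace Pool.Agent.H17GT

theorem kernel_descend {F K : Type*} [Field F] [Field K] [Algebra F K] {ι A : Type*} [Fintype ι]
    (v : ι → A → F) (κ : ι → K) (h : ∀ a, ∑ i, κ i * algebraMap F K (v i a) = 0) :
    ∃ (r : ℕ) (μ : Fin r → K) (c : Fin r → ι → F), (∀ s a, ∑ i, c s i * v i a = 0) ∧
      ∀ i, κ i = ∑ s, μ s * algebraMap F K (c s i) := by
  classical
  set W : Submodule F K := Submodule.span F (Set.range κ) with hW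
  have hfin : Module.Finite F W := by
    rw [hW]
    exact Module.Finite.span_of_finite F (Set.finite_range κ)
  let b := Module.finBasis F W
  have hκ : ∀ i, κ i ∈ W := fun i => Submodule.subset_span ⟨i, rfl⟩
  let k' : ι → W := fun i => ⟨κ i, hκ i⟩
  refine ⟨Module.finrank F W, fun s => (b s : K), fun s i => b.repr (k' i) s, ?_, ?_⟩
  · intro s a
    have h1 : ∑ i, v i a • k' i = 0 := by
      apply Subtype.ext
      rw [Submodule.coe_sum]
      simp only [Submodule.coe_smul, Submodule.coe_zero]
      rw [← h a]
      refine Finset.sum_congr rfl fun i _ => ?_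
      rw [Algebra.smul_def, mul_comm]
    have h2 := congrArg (fun w => b.repr w s) h1
    simp only [map_sum, map_smul, map_zero, Finsupp.coe_finset_sum, Finset.sum_apply,
      Finsupp.smul_apply, smul_eq_mul, Finsupp.coe_zero, Pi.zero_apply] at h2
    rw [← h2]
    exact Finset.sum_congr rfl fun i _ => mul_comm _ _
  · intro i
    have h1 := b.sum_repr (k' i)
    have h2 := congrArg (fun w : W => (w : K)) h1
    simp only [Submodule.coe_sum, Submodule.coe_smul] at h2
    change _ = κ i at h2
    rw [← h2]
    refine Finset.sum_congr rfl fun s _ => ?_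
    rw [Algebra.smul_def, mul_comm]

end Pool.Agent.H17GT
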