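import Pool.Agent.H17GT.Base

/-!
# Forms vanishing at a point
-/

open MvPolynomial

noncomputable section

namespace Pool.Agent.H17GT

theorem mem_koszul {K : Type*} [Field K] {N d : ℕ} (x : Fin (N + 1) → K) (hx : x ≠ 0) (hd : 1 ≤ d)
    (f : MvPolynomial (Fin (N + 1)) K) (hf : f.IsHomogeneous d) (h0 : eval x f = 0) :
    f ∈ Submodule.span K {g : MvPolynomial (Fin (N + 1)) K |
      ∃ (M : Fin (N + 1) →₀ ℕ) (p q : Fin (N + 1)), M.degree + 1 = d ∧
        g = monomial (M + Finsupp.single q 1) (x p) - monomial (M + Finsupp.single p 1) (x q)} := by
  classical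
  set S := Submodule.span K {g : MvPolynomial (Fin (N + 1)) K |
      ∃ (M : Fin (N + 1) →₀ ℕ) (p q : Fin (N + 1)), M.degree + 1 = d ∧
        g = monomial (M + Finsupp.single q 1) (x p) - monomial (M + Finsupp.single p 1) (x q)}
    with hS
  obtain ⟨j, hj⟩ : ∃ j, x j ≠ 0 := by
    by_contra hcon
    push Not at hcon
    exact hx (funext hcon)
  have hev : ∀ (M : Fin (N + 1) →₀ ℕ) (q : Fin (N + 1)),
      eval x (monomial (M + Finsupp.single q 1) (1 : K)) = eval x (monomial M (1 : K)) * x q := by
    intro M q
    have h1 : monomial (M + Finsupp.single q 1) (1 : K) = monomial M (1 : K) * X q := by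
      rw [X, monomial_mul, one_mul]
    rw [h1, map_mul, eval_X]
  have hmon : ∀ (m : Fin (N + 1) →₀ ℕ) (a : K), monomial m a = a • monomial m (1 : K) := by
    intro m a
    rw [smul_monomial, smul_eq_mul, mul_one]
  have key : ∀ (n : ℕ) (m : Fin (N + 1) →₀ ℕ), m.degree = d → d - m j = n →
      monomial m (1 : K) - (eval x (monomial m (1 : K)) / x j ^ d) •
        monomial (Finsupp.single j d) (1 : K) ∈ S := by
    intro n
    induction n using Nat.strong_induction_on with
    | _ n ih =>
      intro m hm hn
      by_cases hq : ∃ q, q ≠ j ∧ m q ≠ 0
      · obtain ⟨q, hqj, hq0⟩ := hq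
        obtain ⟨M, hM⟩ : ∃ M, m = M + Finsupp.single q 1 := by
          refine ⟨m - Finsupp.single q 1, ?_⟩
          rw [tsub_add_cancel_of_le]
          rw [Finsupp.single_le_iff]
          omega
        have hMd : M.degree + 1 = d := by
          rw [← hm, hM, map_add]
          simp
        -- the generator
        have hgen : monomial (M + Finsupp.single q 1) (x j) -
            monomial (M + Finsupp.single j 1) (x q) ∈ S :=
          Submodule.subset_span ⟨M, j, q, hMd, rfl⟩
        have hmj : m j = M j := by
          rw [hM, Finsupp.add_apply, Finsupp.single_apply, if_neg hqj]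
          rfl
        have hMj : M j < d := by
          have h1 : M j ≤ M.degree := by
            rw [Finsupp.degree_eq_sum]
            exact Finset.single_le_sum (f := fun i => M i) (fun i _ => Nat.zero_le _)
              (Finset.mem_univ j)
          omega
        have hm' : (M + Finsupp.single j 1).degree = d := by
          rw [map_add]
          simpa using hMd
        have hmj' : (M + Finsupp.single j 1 : Fin (N + 1) →₀ ℕ) j = M j + 1 := by
          rw [Finsupp.add_apply, Finsupp.single_eq_same]
        have h2 := ih (d - (M j + 1)) (by omega) (M + Finsupp.single j 1) hm' (by rw [hmj'])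
        -- combine
        have h3 : monomial m (1 : K) - (eval x (monomial m (1 : K)) / x j ^ d) •
            monomial (Finsupp.single j d) (1 : K) =
            (x j)⁻¹ • (monomial (M + Finsupp.single q 1) (x j) -
              monomial (M + Finsupp.single j 1) (x q)) +
            (x q / x j) • (monomial (M + Finsupp.single j 1) (1 : K) -
              (eval x (monomial (M + Finsupp.single j 1) (1 : K)) / x j ^ d) •
                monomial (Finsupp.single j d) (1 : K)) := by
          rw [hM, hmon _ (x j), hmon _ (x q), hev, hev]
          rw [smul_sub, smul_sub, smul_smul, smul_smul, smul_smul, inv_mul_cancel₀ hj, one_smul]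
          have h4 : (x j)⁻¹ * x q = x q / x j := by rw [div_eq_mul_inv, mul_comm]
          rw [h4]
          have h5 : x q / x j * (eval x (monomial M (1 : K)) * x j / x j ^ d) =
              eval x (monomial M (1 : K)) * x q / x j ^ d := by
            field_simp
          rw [h5]
          abel
        rw [h3]
        exact S.add_mem (S.smul_mem _ hgen) (S.smul_mem _ h2)
      · push Not at hq
        have h1 : m = Finsupp.single j d := by
          have h2 : m = Finsupp.single j (m j) := by
            ext i
            by_cases hij : i = j
            · rw [hij, Finsupp.single_eq_same]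
            · rw [hq i hij, Finsupp.single_apply, if_neg (Ne.symm hij)]
          have h3 : m j = d := by
            rw [h2] at hm
            simpa using hm
          rw [h3] at h2
          exact h2
        rw [h1]
        have h2 : eval x (monomial (Finsupp.single j d) (1 : K)) = x j ^ d := by
          rw [eval_monomial, one_mul, Finsupp.prod_single_index (by simp)]
        rw [h2, div_self (pow_ne_zero _ hj), one_smul, sub_self]
        exact S.zero_mem
  -- conclusion
  have hsum : f = ∑ m ∈ f.support, (coeff m f) • (monomial m (1 : K) -
      (eval x (monomial m (1 : K)) / x j ^ d) • monomial (Finsupp.single j d) (1 : K)) := by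
    have h1 : ∑ m ∈ f.support, (coeff m f) • (monomial m (1 : K)) = f := by
      conv_rhs => rw [f.as_sum]
      refine Finset.sum_congr rfl fun m _ => ?_
      rw [← hmon]
    have h2 : ∑ m ∈ f.support, (coeff m f) * (eval x (monomial m (1 : K)) / x j ^ d) = 0 := by
      have h3 : eval x f = ∑ m ∈ f.support, (coeff m f) * eval x (monomial m (1 : K)) := by
        conv_lhs => rw [f.as_sum]
        rw [map_sum]
        refine Finset.sum_congr rfl fun m _ => ?_
        rw [hmon, smul_eval]
      rw [h0] at h3
      simp only [mul_div_assoc']
      rw [← Finset.sum_div, ← h3, zero_div]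
    simp only [smul_sub, smul_smul]
    rw [Finset.sum_sub_distrib, h1, ← Finset.sum_smul, h2, zero_smul, sub_zero]
  rw [hsum]
  refine S.sum_mem fun m hm => S.smul_mem _ ?_
  have hmd : m.degree = d := by
    have h1 := hf (mem_support_iff.1 hm)
    rw [← h1, Finsupp.degree_eq_weight_one]
    rfl
  exact key (d - m j) m hmd rfl

end Pool.Agent.H17GT
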