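import Pool.Agent.H17GT.ModDERAE
import Pool.Agent.H17GT.ModEXT
import Pool.Agent.H17GT.ModKOSZUL
import Pool.Agent.H17GT.ModDESC

/-!
# The kernel of the Jacobian is spanned by good derivations
-/

open MvPolynomial
open Pool.Agent.H23 (RatForm regularForms PrimeDivisorOver)

noncomputable section

namespace Pool.Agent.H17GT

variable {K : Type} [Field K] [Algebra ℂ K]

private theorem der_sum_apply {A : Type} [CommRing A] {ι : Type*} (s : Finset ι)
    (F : ι → Derivation ℤ A A) (a : A) : (∑ i ∈ s, F i) a = ∑ i ∈ s, F i a := by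
  classical
  induction s using Finset.induction_on with
  | empty => simp
  | insert i s hi ih =>
    rw [Finset.sum_insert hi, Finset.sum_insert hi, Derivation.add_apply, ih]

private theorem jac_apply' {N c : ℕ} (G : Fin c → MvPolynomial (Fin (N + 1)) ℂ)
    (x v : Fin (N + 1) → K) (l : Fin c) :
    jac G x v l = ∑ i, aeval x (pderiv i (G l)) * v i := by
  unfold jac
  rw [Matrix.mulVecLin_apply]
  rfl

private theorem jac_der {N c : ℕ} {G : Fin c → MvPolynomial (Fin (N + 1)) ℂ}
    {x : Fin (N + 1) → K} (hGx : ∀ l, aeval x (G l) = 0) (V : Derivation ℤ K K) (l : Fin c) :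
    jac G x (fun i => V (x i)) l = - coefEval (fun a => V (algebraMap ℂ K a)) x (G l) := by
  have h1 := der_aeval V x (G l)
  rw [hGx l, map_zero] at h1
  rw [jac_apply', eq_neg_iff_add_eq_zero, add_comm]
  exact h1.symm

/-- Integral derivations of `K` which are `K`-combinations of extensions of derivations of `ℂ`. -/
private def Lifts (K : Type) [Field K] [Algebra ℂ K] : Submodule K (Derivation ℤ K K) :=
  Submodule.span K {F | ∃ D : Derivation ℤ ℂ ℂ, Ext D F}

omit [Algebra ℂ K] in
private theorem coefEval_congr {N : ℕ} {φ : ℂ → K} {x : Fin (N + 1) → K}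
    {G : MvPolynomial (Fin (N + 1)) ℂ} {ψ : (Fin (N + 1) →₀ ℕ) → K}
    (h : ∀ m, φ (G.coeff m) = ψ m) (h0 : φ 0 = 0) {S : Finset (Fin (N + 1) →₀ ℕ)}
    (hS : ∀ m, m ∉ S → ψ m = 0) :
    coefEval φ x G = ∑ m ∈ S, ψ m * m.prod fun i e => x i ^ e := by
  classical
  rw [coefEval_eq_sum h0 x G (S := G.support ∪ S) Finset.subset_union_left]
  rw [Finset.sum_congr rfl fun m _ => by rw [h m]]
  symm
  refine Finset.sum_subset Finset.subset_union_right fun m _ hm => ?_
  rw [hS m hm, zero_mul]

theorem mem_span_of_mem_ker [Algebra.EssFiniteType ℂ K] {N c k : ℕ} {d : Fin c → ℕ}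
    (hd : ∀ l, 1 ≤ d l) {G : Fin c → MvPolynomial (Fin (N + 1)) ℂ}
    (hG : ∀ l, (G l).IsHomogeneous (d l)) {x : Fin (N + 1) → K} (hx : x ≠ 0)
    (hGx : ∀ l, aeval x (G l) = 0) {z : Fin (k + 1) → K} (hz : IsTranscendenceBasis ℂ z)
    (h₁ : FreeCoefficients d G) (h₂ : FreeMotions x) (τ : Fin (N + 1) → K) (hτ : jac G x τ = 0) :
    τ ∈ Submodule.span K {v : Fin (N + 1) → K | ∃ (w : ℕ) (D' : Derivation ℤ K K), w ≤ 1 ∧
      Good (k + 1) x w D' ∧ jac G x (fun i => D' (x i)) = 0 ∧ v = fun i => D' (x i)} := by
  classical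
  set T := Submodule.span K {v : Fin (N + 1) → K | ∃ (w : ℕ) (D' : Derivation ℤ K K), w ≤ 1 ∧
      Good (k + 1) x w D' ∧ jac G x (fun i => D' (x i)) = 0 ∧ v = fun i => D' (x i)} with hT
  obtain ⟨j, hj⟩ : ∃ j, x j ≠ 0 := by
    by_contra hcon
    push Not at hcon
    exact hx (funext hcon)
  -- extensions of derivations
  have hext : ∀ D : Derivation ℤ ℂ ℂ, ∃ F : Derivation ℤ K K, Ext D F := by
    intro D
    have h1 : AlgebraicIndependent ℂ (fun e : Empty => (e.elim : K)) :=
      algebraicIndependent_empty_type
    obtain ⟨F, hF, -⟩ := exists_ext_values h1 D (fun e => e.elim)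
    exact ⟨F, hF⟩
  -- the derivation `E0` with `E0 x = τ`
  choose DD DD' hDD hDDx using fun i => h₂ i j
  let E0 : Derivation ℤ K K := ∑ i, (τ i / x j) • DD' i
  have hE0x : ∀ i, E0 (x i) = τ i := by
    intro i
    have h1 : E0 (x i) = ∑ i', (τ i' / x j) * (DD' i' (x i)) := by
      simp only [E0, der_sum_apply, Derivation.smul_apply, smul_eq_mul]
    rw [h1, Finset.sum_eq_single i]
    · rw [hDDx, if_pos rfl]
      field_simp
    · intro i' _ hne
      rw [hDDx, if_neg (Ne.symm hne), mul_zero]
    · intro h
      exact absurd (Finset.mem_univ _) h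
  have hE0 : E0 ∈ Lifts K := by
    refine Submodule.sum_mem _ fun i _ => Submodule.smul_mem _ _ ?_
    exact Submodule.subset_span ⟨DD i, hDD i⟩
  -- values on the coefficients
  have hcoef0 : ∀ V : Derivation ℤ K K, (fun a : ℂ => V (algebraMap ℂ K a)) 0 = 0 := by
    intro V
    simp
  -- the correction terms
  have hcorr : ∀ l, ∀ g ∈ Submodule.span K {g : MvPolynomial (Fin (N + 1)) K |
      ∃ (M : Fin (N + 1) →₀ ℕ) (p q : Fin (N + 1)), M.degree + 1 = d l ∧
        g = monomial (M + Finsupp.single q 1) (x p) - monomial (M + Finsupp.single p 1) (x q)},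
      ∃ V : Derivation ℤ K K, V ∈ Lifts K ∧
        (∀ l' m', V (algebraMap ℂ K ((G l').coeff m')) = if l' = l then coeff m' g else 0) ∧
        (fun i => V (x i)) ∈ T := by
    intro l g hg
    induction hg using Submodule.span_induction with
    | mem g hg =>
      obtain ⟨M, p, q, hM, rfl⟩ := hg
      have hq : Finsupp.degree (M + Finsupp.single q 1) = d l := by
        rw [map_add]
        simpa using hM
      have hp : Finsupp.degree (M + Finsupp.single p 1) = d l := by
        rw [map_add]
        simpa using hM
      obtain ⟨D1, hD1⟩ := h₁ l _ hq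
      obtain ⟨D2, hD2⟩ := h₁ l _ hp
      obtain ⟨F1, hF1⟩ := hext D1
      obtain ⟨F2, hF2⟩ := hext D2
      have hval : ∀ l' m', (x p • F1 - x q • F2) (algebraMap ℂ K ((G l').coeff m')) =
          if l' = l then coeff m' (monomial (M + Finsupp.single q 1) (x p) -
            monomial (M + Finsupp.single p 1) (x q) : MvPolynomial (Fin (N + 1)) K) else 0 := by
        intro l' m'
        rw [Derivation.sub_apply, Derivation.smul_apply, Derivation.smul_apply, hF1, hF2, hD1,
          hD2, coeff_sub, coeff_monomial, coeff_monomial]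
        by_cases hl : l' = l
        · simp only [hl, true_and, if_true]
          by_cases hm1 : m' = M + Finsupp.single q 1
          · by_cases hm2 : m' = M + Finsupp.single p 1
            · simp [hm1.symm, hm2.symm]
            · simp [hm1.symm, hm2, Ne.symm hm2]
          · by_cases hm2 : m' = M + Finsupp.single p 1
            · simp [hm1, hm2.symm, Ne.symm hm1]
            · simp [hm1, hm2, Ne.symm hm1, Ne.symm hm2]
        · simp [hl]
      refine ⟨x p • F1 - x q • F2, ?_, hval, ?_⟩
      · exact Submodule.sub_mem _ (Submodule.smul_mem _ _ (Submodule.subset_span ⟨D1, hF1⟩))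
          (Submodule.smul_mem _ _ (Submodule.subset_span ⟨D2, hF2⟩))
      · refine Submodule.subset_span ⟨1, x p • F1 - x q • F2, le_refl _,
          good_of_ext_pair hz x hF1 hF2 p q, ?_, rfl⟩
        funext l'
        rw [jac_der hGx]
        rw [coefEval_congr (ψ := fun m => if l' = l then
          coeff m (monomial (M + Finsupp.single q 1) (x p) -
            monomial (M + Finsupp.single p 1) (x q) : MvPolynomial (Fin (N + 1)) K) else 0)
          (S := {M + Finsupp.single q 1} ∪ {M + Finsupp.single p 1})
          (fun m => hval l' m) (hcoef0 _)]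
        · by_cases hl : l' = l
          · simp only [hl, if_true, Pi.zero_apply]
            have hev : ∀ r : Fin (N + 1), (M + Finsupp.single r 1).prod (fun i e => x i ^ e) =
                (M.prod fun i e => x i ^ e) * x r := by
              intro r
              rw [Finsupp.prod_add_index' (h := fun i e => x i ^ e) (fun i => pow_zero _)
                (fun i a b => pow_add _ _ _),
                Finsupp.prod_single_index (h := fun i e => x i ^ e) (pow_zero _), pow_one]
            by_cases hpq : q = p
            · subst hpq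
              simp
            · have hne : M + Finsupp.single q 1 ≠ M + Finsupp.single p 1 := by
                intro h
                have h1 := add_left_cancel h
                exact hpq ((Finsupp.single_left_inj one_ne_zero).1 h1)
              rw [Finset.sum_union (by simpa using hne), Finset.sum_singleton,
                Finset.sum_singleton, hev, hev, coeff_sub, coeff_sub, coeff_monomial,
                coeff_monomial, coeff_monomial, coeff_monomial, if_pos rfl, if_pos rfl,
                if_neg (Ne.symm hne), if_neg hne]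
              ring
          · simp [hl]
        · intro m hm
          rw [Finset.mem_union, Finset.mem_singleton, Finset.mem_singleton, not_or] at hm
          rw [coeff_sub, coeff_monomial, coeff_monomial, if_neg (Ne.symm hm.1),
            if_neg (Ne.symm hm.2), sub_self, ite_self]
    | zero =>
      refine ⟨0, Submodule.zero_mem _, fun l' m' => by simp, ?_⟩
      have h1 : (fun i => (0 : Derivation ℤ K K) (x i)) = 0 := by
        funext i
        rfl
      rw [h1]
      exact T.zero_mem
    | add g g' _ _ ih ih' =>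
      obtain ⟨V, hV1, hV2, hV3⟩ := ih
      obtain ⟨V', hV1', hV2', hV3'⟩ := ih'
      refine ⟨V + V', Submodule.add_mem _ hV1 hV1', fun l' m' => ?_, ?_⟩
      · rw [Derivation.add_apply, hV2, hV2']
        split_ifs
        · rw [coeff_add]
        · rw [add_zero]
      · exact T.add_mem hV3 hV3'
    | smul a g _ ih =>
      obtain ⟨V, hV1, hV2, hV3⟩ := ih
      refine ⟨a • V, Submodule.smul_mem _ _ hV1, fun l' m' => ?_, ?_⟩
      · rw [Derivation.smul_apply, hV2]
        split_ifs
        · rw [coeff_smul]
        · rw [smul_zero]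
      · exact T.smul_mem a hV3
  -- the forms `f l`
  let f : Fin c → MvPolynomial (Fin (N + 1)) K := fun l =>
    ∑ m ∈ (G l).support, monomial m (E0 (algebraMap ℂ K ((G l).coeff m)))
  have hfcoeff : ∀ l m, coeff m (f l) = E0 (algebraMap ℂ K ((G l).coeff m)) := by
    intro l m
    simp only [f]
    rw [coeff_sum]
    by_cases hm : m ∈ (G l).support
    · rw [Finset.sum_eq_single m]
      · rw [coeff_monomial, if_pos rfl]
      · intro m' _ hne
        rw [coeff_monomial, if_neg hne]
      · intro h
        exact absurd hm h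
    · rw [Finset.sum_eq_zero]
      · rw [notMem_support_iff.1 hm, map_zero, map_zero]
      · intro m' hm'
        rw [coeff_monomial, if_neg]
        rintro rfl
        exact hm hm'
  have hfhom : ∀ l, (f l).IsHomogeneous (d l) := by
    intro l
    refine IsHomogeneous.sum _ _ _ fun m hm => ?_
    refine isHomogeneous_monomial _ ?_
    have h1 := hG l (mem_support_iff.1 hm)
    rw [← h1, Finsupp.degree_eq_weight_one]
    rfl
  have hfev : ∀ l, eval x (f l) = 0 := by
    intro l
    have h1 : eval x (f l) = coefEval (fun a => E0 (algebraMap ℂ K a)) x (G l) := by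
      simp only [f]
      rw [map_sum]
      unfold coefEval
      refine Finset.sum_congr rfl fun m _ => ?_
      rw [eval_monomial]
    rw [h1]
    have h2 := jac_der hGx E0 l
    have h3 : (fun i => E0 (x i)) = τ := funext hE0x
    rw [h3, hτ, Pi.zero_apply] at h2
    exact neg_eq_zero.1 h2.symm
  choose V hV1 hV2 hV3 using fun l =>
    hcorr l (f l) (mem_koszul x hx (hd l) (f l) (hfhom l) (hfev l))
  -- the derivation `E2`
  let E2 : Derivation ℤ K K := E0 - ∑ l, V l
  have hE2 : E2 ∈ Lifts K := Submodule.sub_mem _ hE0 (Submodule.sum_mem _ fun l _ => hV1 l)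
  have hE2coef : ∀ l m, E2 (algebraMap ℂ K ((G l).coeff m)) = 0 := by
    intro l m
    change (E0 - ∑ l, V l) (algebraMap ℂ K ((G l).coeff m)) = 0
    rw [Derivation.sub_apply, der_sum_apply Finset.univ V,
      Finset.sum_congr rfl fun l' _ => hV2 l' l m]
    rw [Finset.sum_ite_eq Finset.univ l, if_pos (Finset.mem_univ _), hfcoeff, sub_self]
  obtain ⟨n, κ, F, hF⟩ := Submodule.mem_span_set'.1 hE2
  choose D hD using fun i => (F i).2
  have hrel : ∀ a : Fin c × (Fin (N + 1) →₀ ℕ),
      ∑ i, κ i * algebraMap ℂ K (D i ((G a.1).coeff a.2)) = 0 := by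
    rintro ⟨l, m⟩
    have h1 := hE2coef l m
    rw [← hF, der_sum_apply] at h1
    rw [← h1]
    refine Finset.sum_congr rfl fun i _ => ?_
    rw [Derivation.smul_apply, hD i, smul_eq_mul]
  obtain ⟨r, μ, cc, hc1, hc2⟩ := kernel_descend
    (fun (i : Fin n) (a : Fin c × (Fin (N + 1) →₀ ℕ)) => D i ((G a.1).coeff a.2)) κ hrel
  let H : Fin r → Derivation ℤ K K := fun s => ∑ i, algebraMap ℂ K (cc s i) • (F i).1
  have hHext : ∀ s, Ext (∑ i, cc s i • D i) (H s) := by
    intro s a
    simp only [H]
    rw [der_sum_apply, der_sum_apply, map_sum]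
    refine Finset.sum_congr rfl fun i _ => ?_
    rw [Derivation.smul_apply, hD i, Derivation.smul_apply, smul_eq_mul, smul_eq_mul, map_mul]
  have hE2H : E2 = ∑ s, μ s • H s := by
    rw [← hF]
    simp only [H, Finset.smul_sum, smul_smul]
    rw [Finset.sum_comm]
    refine Finset.sum_congr rfl fun i _ => ?_
    rw [← Finset.sum_smul, ← hc2 i]
  have hHT : ∀ s, (fun i => H s (x i)) ∈ T := by
    intro s
    refine Submodule.subset_span ⟨0, H s, by omega, good_of_ext hz x (hHext s), ?_, rfl⟩
    funext l
    rw [jac_der hGx, coefEval_congr (ψ := fun _ => 0) (S := ∅) (fun m => ?_) (hcoef0 _)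
      (fun _ _ => rfl)]
    · simp
    · rw [hHext s]
      have h1 := hc1 s (l, m)
      simp only at h1
      rw [der_sum_apply]
      simp only [Derivation.smul_apply, smul_eq_mul]
      rw [h1, map_zero]
  have hE2T : (fun i => E2 (x i)) ∈ T := by
    have h1 : (fun i => E2 (x i)) = ∑ s, μ s • (fun i => H s (x i)) := by
      funext i
      rw [hE2H, der_sum_apply, Finset.sum_apply]
      rfl
    rw [h1]
    exact T.sum_mem fun s _ => T.smul_mem _ (hHT s)
  have hfinal : τ = (fun i => E2 (x i)) + ∑ l, (fun i => V l (x i)) := by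
    funext i
    rw [Pi.add_apply, Finset.sum_apply]
    have h1 : E2 (x i) = τ i - ∑ l, V l (x i) := by
      change (E0 - ∑ l, V l) (x i) = _
      rw [Derivation.sub_apply, hE0x, der_sum_apply Finset.univ V]
    rw [h1, sub_add_cancel]
  rw [hfinal]
  exact T.add_mem hE2T (T.sum_mem fun l _ => hV3 l)

end Pool.Agent.H17GT
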