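import Pool.Agent.H17GT.Base
import Pool.Agent.H17GT.ModSPAN
import Pool.Agent.H17GT.ModFORM

/-!
# General type: the case of free coefficients and motions
-/

open MvPolynomial
open Pool.Agent.H23 (RatForm regularForms PrimeDivisorOver)

noncomputable section

namespace Pool.Agent.H17GT

variable {K : Type} [Field K] [Algebra ℂ K]

/-! ### Linear algebra -/

omit [Algebra ℂ K] in
/-- A linearly independent family in a subspace which is spanned by a subset `S` can be completed
by vectors of `S`. -/
private lemma free_extend {V : Type*} [AddCommGroup V] [Module K V] [FiniteDimensional K V]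
    (L : Submodule K V) {ι : Type*} [Fintype ι] (u : ι → V) (hu : LinearIndependent K u)
    (huL : ∀ i, u i ∈ L) (S : Set V) (hS : S ⊆ L) (hLS : ∀ v ∈ L, v ∈ Submodule.span K S) :
    ∃ (r : ℕ) (v : Fin r → V), (∀ i, v i ∈ S) ∧ LinearIndependent K (Sum.elim u v) ∧
      Fintype.card ι + r = Module.finrank K L := by
  classical
  have hs : LinearIndepOn K id (Set.range u) := hu.linearIndepOn_id
  obtain ⟨b, hbt, hsb, htb, hb⟩ :=
    exists_linearIndepOn_id_extension hs (Set.subset_union_left (s := Set.range u) (t := S))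
  have hbfin : b.Finite := hb.setFinite
  have hbL : Submodule.span K b = L := by
    apply le_antisymm
    · rw [Submodule.span_le]
      intro v hv
      rcases hbt hv with ⟨i, rfl⟩ | h
      · exact huL i
      · exact hS h
    · intro v hv
      have h1 : Submodule.span K S ≤ Submodule.span K b := by
        rw [Submodule.span_le]
        exact fun w hw => htb (Set.mem_union_right _ hw)
      exact h1 (hLS v hv)
  have hcfin : (b \ Set.range u).Finite := hbfin.subset Set.sdiff_subset
  let _ : Fintype ↥(b \ Set.range u) := hcfin.fintype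
  let _ : Fintype ↥b := hbfin.fintype
  set r := Fintype.card ↥(b \ Set.range u) with hr
  let e : Fin r ≃ ↥(b \ Set.range u) := (Fintype.equivFin _).symm
  let v : Fin r → V := fun i => (e i : V)
  have hvS : ∀ i, v i ∈ S := by
    intro i
    have h1 := (e i).2
    rcases hbt h1.1 with h2 | h2
    · exact absurd h2 h1.2
    · exact h2
  let f : ι ⊕ Fin r → ↥b := Sum.elim (fun i => ⟨u i, hsb ⟨i, rfl⟩⟩) fun i => ⟨v i, (e i).2.1⟩
  have hfinj : Function.Injective f := by
    rintro (i | i) (j | j) hij
    · have h1 : u i = u j := congrArg Subtype.val hij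
      rw [hu.injective h1]
    · have h1 : u i = v j := congrArg Subtype.val hij
      exact absurd ⟨i, h1⟩ (e j).2.2
    · have h1 : v i = u j := congrArg Subtype.val hij
      exact absurd ⟨j, h1.symm⟩ (e i).2.2
    · have h1 : ((f (Sum.inr i) : ↥b) : V) = ((f (Sum.inr j) : ↥b) : V) :=
        congrArg Subtype.val hij
      have h2 : ((e i : ↥(b \ Set.range u)) : V) = ((e j : ↥(b \ Set.range u)) : V) := h1
      rw [e.injective (Subtype.ext h2)]
  have hfsurj : Function.Surjective f := by
    rintro ⟨w, hw⟩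
    by_cases h : w ∈ Set.range u
    · obtain ⟨i, rfl⟩ := h
      exact ⟨Sum.inl i, rfl⟩
    · refine ⟨Sum.inr (e.symm ⟨w, hw, h⟩), ?_⟩
      apply Subtype.ext
      change ((e (e.symm ⟨w, hw, h⟩) : ↥(b \ Set.range u)) : V) = w
      rw [Equiv.apply_symm_apply]
  have hcomp : Sum.elim u v = (fun w : ↥b => (w : V)) ∘ f := by
    funext s
    rcases s with i | i <;> rfl
  refine ⟨r, v, hvS, ?_, ?_⟩
  · rw [hcomp]
    exact (LinearIndependent.comp hb f hfinj)
  · have h1 : Fintype.card (ι ⊕ Fin r) = Fintype.card ↥b :=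
      Fintype.card_congr (Equiv.ofBijective f ⟨hfinj, hfsurj⟩)
    have h2 : Module.finrank K (Submodule.span K b) = Fintype.card ↥b := by
      have := finrank_span_set_eq_card (R := K) (s := b) hb
      rw [this, Set.toFinset_card]
    rw [← hbL, h2, ← h1, Fintype.card_sum, Fintype.card_fin]

/-! ### Derivations -/

private lemma free_sum_apply {ι : Type*} (s : Finset ι) (F : ι → Derivation ℂ K K) (f : K) :
    (∑ i ∈ s, F i) f = ∑ i ∈ s, F i f := by
  classical
  induction s using Finset.induction_on with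
  | empty => rfl
  | insert a s ha ih =>
    rw [Finset.sum_insert ha, Finset.sum_insert ha, Derivation.add_apply, ih]

private lemma free_exists_der {k : ℕ} {z : Fin (k + 1) → K} (hz : IsTranscendenceBasis ℂ z) :
    ∃ δ : Fin (k + 1) → Derivation ℂ K K, ∀ b : Fin (k + 1) → K,
      ∑ j, b j • δ j = 0 → b = 0 := by
  obtain ⟨B, hB⟩ := H23.exists_basis_kaehler hz
  refine ⟨fun i => H23.dualDer B i, fun b hb => ?_⟩
  funext j
  have h1 : (∑ i, b i • H23.dualDer B i) (z j) = 0 := by
    rw [hb]
    rfl
  have h2 : (∑ i, b i • H23.dualDer B i) (z j) = ∑ i, b i * H23.dualDer B i (z j) := by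
    rw [free_sum_apply]
    rfl
  rw [h2, Finset.sum_eq_single j] at h1
  · rw [H23.dualDer_coord B hB, if_pos rfl, mul_one] at h1
    exact h1
  · intro i _ hij
    rw [H23.dualDer_coord B hB, if_neg hij, mul_zero]
  · intro h
    exact absurd (Finset.mem_univ j) h

private lemma free_aeval_pderiv {N : ℕ} (D : Derivation ℂ K K) (x : Fin (N + 1) → K)
    (G : MvPolynomial (Fin (N + 1)) ℂ) :
    ∑ i, aeval x (pderiv i G) * D (x i) = D (aeval x G) := by
  induction G using MvPolynomial.induction_on with
  | C a =>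
    rw [aeval_C, D.map_algebraMap]
    refine Finset.sum_eq_zero fun i _ => ?_
    rw [pderiv_C, map_zero, zero_mul]
  | add p q hp hq =>
    rw [map_add, map_add, ← hp, ← hq, ← Finset.sum_add_distrib]
    refine Finset.sum_congr rfl fun i _ => ?_
    rw [map_add, map_add, add_mul]
  | mul_X p j hp =>
    rw [map_mul, aeval_X, D.leibniz, ← hp, smul_eq_mul, smul_eq_mul, Finset.mul_sum]
    have h1 : ∀ i, aeval x (pderiv i (p * X j)) * D (x i) =
        (if i = j then aeval x p * D (x j) else 0) + x j * (aeval x (pderiv i p) * D (x i)) := by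
      intro i
      rw [Derivation.leibniz, map_add, smul_eq_mul, smul_eq_mul, map_mul, map_mul, aeval_X,
        pderiv_X]
      by_cases hij : i = j
      · subst hij
        simp
        ring
      · rw [if_neg hij, Pi.single_eq_of_ne (fun h => hij h.symm)]
        simp
        ring
    rw [Finset.sum_congr rfl fun i _ => h1 i, Finset.sum_add_distrib, Finset.sum_ite_eq',
      if_pos (Finset.mem_univ j)]

private lemma free_jac_apply {N c : ℕ} (G : Fin c → MvPolynomial (Fin (N + 1)) ℂ)
    (x v : Fin (N + 1) → K) (l : Fin c) :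
    jac G x v l = ∑ i, aeval x (pderiv i (G l)) * v i := rfl

private lemma free_jac_der {N c : ℕ} {G : Fin c → MvPolynomial (Fin (N + 1)) ℂ}
    {x : Fin (N + 1) → K} (hGx : ∀ l, aeval x (G l) = 0) (D : Derivation ℂ K K) :
    jac G x (fun i => D (x i)) = 0 := by
  funext l
  rw [free_jac_apply, free_aeval_pderiv, hGx l, map_zero]
  rfl

private lemma free_jac_self {N c : ℕ} {d : Fin c → ℕ} {G : Fin c → MvPolynomial (Fin (N + 1)) ℂ}
    (hG : ∀ l, (G l).IsHomogeneous (d l)) {x : Fin (N + 1) → K}
    (hGx : ∀ l, aeval x (G l) = 0) : jac G x x = 0 := by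
  funext l
  have h1 := congrArg (aeval x) (hG l).sum_X_mul_pderiv
  rw [map_sum, map_nsmul, hGx l, smul_zero] at h1
  rw [free_jac_apply]
  refine Eq.trans (Finset.sum_congr rfl fun i _ => ?_) h1
  rw [map_mul, aeval_X, mul_comm]

private lemma free_jac_surjective {N c : ℕ} {G : Fin c → MvPolynomial (Fin (N + 1)) ℂ}
    (hcert : Certificate G) {x : Fin (N + 1) → K} (hx : x ≠ 0)
    (hGx : ∀ l, aeval x (G l) = 0) : Function.Surjective (jac G x) := by
  classical
  obtain ⟨j, hj⟩ : ∃ j, x j ≠ 0 := by
    by_contra hcon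
    push Not at hcon
    exact hx (funext hcon)
  obtain ⟨M, A, B, hAB⟩ := hcert j
  have h1 := congrArg (aeval x) hAB
  rw [map_pow, aeval_X, map_add, map_sum, map_sum, Finset.sum_eq_zero, zero_add] at h1
  · have h2 : ∑ I : Fin c → Fin (N + 1), aeval x (B I * Matrix.det (Matrix.of fun l m =>
        pderiv (I m) (G l))) ≠ 0 := by
      rw [← h1]
      exact pow_ne_zero _ hj
    obtain ⟨I, -, hI⟩ := Finset.exists_ne_zero_of_sum_ne_zero h2
    rw [map_mul] at hI
    have h3 : aeval x (Matrix.det (Matrix.of fun l m => pderiv (I m) (G l))) ≠ 0 :=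
      right_ne_zero_of_mul hI
    rw [AlgHom.map_det] at h3
    set Q : Matrix (Fin c) (Fin c) K := Matrix.of fun l m => aeval x (pderiv (I m) (G l)) with hQ
    have h4 : Q.det ≠ 0 := by
      have h7 : Q = (aeval x : MvPolynomial (Fin (N + 1)) ℂ →ₐ[ℂ] K).mapMatrix
          (Matrix.of fun l m => pderiv (I m) (G l)) := by
        ext l m
        rfl
      rw [h7]
      exact h3
    have h5 : IsUnit Q.det := isUnit_iff_ne_zero.2 h4
    intro y
    refine ⟨∑ m, (Q⁻¹.mulVec y) m • Pi.single (I m) (1 : K), ?_⟩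
    rw [map_sum]
    funext l
    rw [Finset.sum_apply]
    have h6 : ∀ m, (jac G x ((Q⁻¹.mulVec y) m • Pi.single (I m) (1 : K))) l =
        Q l m * (Q⁻¹.mulVec y) m := by
      intro m
      rw [map_smul, Pi.smul_apply, smul_eq_mul, mul_comm]
      congr 1
      rw [free_jac_apply, Finset.sum_eq_single (I m)]
      · rw [Pi.single_eq_same, mul_one]
        rfl
      · intro i _ hi
        rw [Pi.single_eq_of_ne hi, mul_zero]
      · intro h
        exact absurd (Finset.mem_univ _) h
    rw [Finset.sum_congr rfl fun m _ => h6 m]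
    change (Q.mulVec (Q⁻¹.mulVec y)) l = y l
    rw [Matrix.mulVec_mulVec, Matrix.mul_nonsing_inv Q h5, Matrix.one_mulVec]
  · intro l _
    rw [map_mul, hGx l, mul_zero]

private lemma free_finrank_ker {N c : ℕ} {G : Fin c → MvPolynomial (Fin (N + 1)) ℂ}
    (hcert : Certificate G) {x : Fin (N + 1) → K} (hx : x ≠ 0)
    (hGx : ∀ l, aeval x (G l) = 0) :
    c + Module.finrank K (LinearMap.ker (jac G x)) = N + 1 := by
  have h1 := LinearMap.finrank_range_add_finrank_ker (jac G x)
  rw [LinearMap.range_eq_top.2 (free_jac_surjective hcert hx hGx), finrank_top] at h1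
  simpa using h1

private lemma free_linearIndependent {N k : ℕ} {x : Fin (N + 1) → K} (hx : x ≠ 0)
    (hgen : IntermediateField.adjoin ℂ {y | ∃ i j, y = x i / x j} = ⊤)
    {δ : Fin (k + 1) → Derivation ℂ K K}
    (hδ : ∀ b : Fin (k + 1) → K, ∑ j, b j • δ j = 0 → b = 0) :
    LinearIndependent K (Sum.elim (fun _ : Unit => x) fun i j => δ i (x j)) := by
  rw [Fintype.linearIndependent_iff]
  intro g hg
  rw [Fintype.sum_sum_type] at hg
  simp only [Finset.univ_unique, Finset.sum_singleton, Sum.elim_inl, Sum.elim_inr] at hg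
  set a : K := g (Sum.inl default) with ha
  set b : Fin (k + 1) → K := fun i => g (Sum.inr i) with hb
  set D : Derivation ℂ K K := ∑ j, b j • δ j with hD
  have hDapp : ∀ f, D f = ∑ j, b j * δ j f := by
    intro f
    rw [hD, free_sum_apply]
    rfl
  have hDx : ∀ i, D (x i) = -a * x i := by
    intro i
    have h1 := congrFun hg i
    rw [Pi.add_apply, Finset.sum_apply] at h1
    simp only [Pi.smul_apply, smul_eq_mul, Pi.zero_apply] at h1
    rw [hDapp]
    linear_combination h1
  have hD0 : D = 0 := by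
    ext f
    have hf : f ∈ IntermediateField.adjoin ℂ {y | ∃ i j, y = x i / x j} := by
      rw [hgen]
      exact IntermediateField.mem_top
    induction hf using IntermediateField.adjoin_induction with
    | mem y hy =>
      obtain ⟨i, j, rfl⟩ := hy
      rw [D.leibniz_div, hDx, hDx]
      simp only [smul_eq_mul, Derivation.coe_zero, Pi.zero_apply]
      ring
    | algebraMap c =>
      rw [D.map_algebraMap]
      rfl
    | add y y' _ _ h1 h2 =>
      rw [map_add, h1, h2]
      simp
    | inv y _ h1 =>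
      rw [D.leibniz_inv, h1]
      simp
    | mul y y' _ _ h1 h2 =>
      rw [D.leibniz, h1, h2]
      simp
  have hb0 : b = 0 := hδ b hD0
  have ha0 : a = 0 := by
    by_contra hne
    apply hx
    funext i
    have h1 := hDx i
    rw [hD0, Derivation.coe_zero, Pi.zero_apply] at h1
    have h2 : a * x i = 0 := by linear_combination h1
    exact (mul_eq_zero.1 h2).resolve_left hne
  rintro (u | i)
  · exact ha0
  · exact congrFun hb0 i

/-! ### M9b -/
theorem isGeneralType_of_free [Algebra.EssFiniteType ℂ K] {N c k : ℕ} {d : Fin c → ℕ}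
    (hd : ∀ l, 1 ≤ d l) {G : Fin c → MvPolynomial (Fin (N + 1)) ℂ}
    (hG : ∀ l, (G l).IsHomogeneous (d l)) (hcert : Certificate G) {x : Fin (N + 1) → K}
    (hx : x ≠ 0) (hgen : IntermediateField.adjoin ℂ {y | ∃ i j, y = x i / x j} = ⊤)
    (hGx : ∀ l, aeval x (G l) = 0) {z : Fin (k + 1) → K} (hz : IsTranscendenceBasis ℂ z)
    (h₁ : FreeCoefficients d G) (h₂ : FreeMotions x) (hdeg : 2 * N + 1 ≤ ∑ l, d l + c) :
    IsGeneralType K (k + 1) := by
  classical
  obtain ⟨δ, hδ⟩ := free_exists_der hz
  have hli := free_linearIndependent hx hgen hδ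
  set S : Set (Fin (N + 1) → K) := {v | ∃ (w : ℕ) (D' : Derivation ℤ K K), w ≤ 1 ∧
      Good (k + 1) x w D' ∧ jac G x (fun i => D' (x i)) = 0 ∧ v = fun i => D' (x i)} with hS
  obtain ⟨r, v, hvS, hv, hcard⟩ := free_extend (LinearMap.ker (jac G x))
    (Sum.elim (fun _ : Unit => x) fun (i : Fin (k + 1)) j => δ i (x j)) hli
    (by
      rintro (u | i)
      · exact free_jac_self hG hGx
      · exact free_jac_der hGx (δ i)) S
    (by
      rintro v ⟨w, D', _, _, h3, rfl⟩
      exact h3)
    (fun τ hτ => mem_span_of_mem_ker hd hG hx hGx hz h₁ h₂ τ hτ)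
  choose w D' hw hgood hker hvD using hvS
  have hfin := free_finrank_ker hcert hx hGx
  rw [← hcard, Fintype.card_sum, Fintype.card_unit, Fintype.card_fin] at hfin
  have hwsum : ∑ i, w i ≤ r := by
    refine le_trans (Finset.sum_le_card_nsmul _ _ 1 fun i _ => hw i) ?_
    simp
  refine isGeneralType_of_good hd hG hcert hx hgen hGx hz w D' hgood hker δ ?_ (by omega)
    (by omega)
  let e : Unit ⊕ (Fin r ⊕ Fin (k + 1)) ≃ (Unit ⊕ Fin (k + 1)) ⊕ Fin r :=
    ((Equiv.refl Unit).sumCongr (Equiv.sumComm (Fin r) (Fin (k + 1)))).trans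
      (Equiv.sumAssoc Unit (Fin (k + 1)) (Fin r)).symm
  have h5 := hv.comp e e.injective
  have h6 : (Sum.elim (fun _ : Unit => x) (Sum.elim (fun i j => D' i (x j))
      fun i j => δ i (x j))) =
      (Sum.elim (Sum.elim (fun _ : Unit => x) fun (i : Fin (k + 1)) j => δ i (x j)) v) ∘ e := by
    funext s
    rcases s with u | i | i
    · rfl
    · exact (hvD i).symm
    · rfl
  rw [h6]
  exact h5

theorem isGeneralType_of_top [Algebra.EssFiniteType ℂ K] {n c : ℕ} {d : Fin c → ℕ}
    (hd : ∀ l, 1 ≤ d l) {G : Fin c → MvPolynomial (Fin (n + 1 + c + 1)) ℂ}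
    (hG : ∀ l, (G l).IsHomogeneous (d l)) (hcert : Certificate G) {x : Fin (n + 1 + c + 1) → K}
    (hx : x ≠ 0) (hgen : IntermediateField.adjoin ℂ {y | ∃ i j, y = x i / x j} = ⊤)
    (hGx : ∀ l, aeval x (G l) = 0) {k : ℕ} (hnk : n ≤ k) {z : Fin (k + 1) → K}
    (hz : IsTranscendenceBasis ℂ z) (hdeg : n + c + 3 ≤ ∑ l, d l) :
    IsGeneralType K (k + 1) := by
  classical
  obtain ⟨δ, hδ⟩ := free_exists_der hz
  have hli := free_linearIndependent hx hgen hδ
  have hfin := free_finrank_ker hcert hx hGx
  have hcard : k + 2 ≤ Module.finrank K (LinearMap.ker (jac G x)) := by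
    have h1 : LinearIndependent K (fun s => (⟨Sum.elim (fun _ : Unit => x)
        (fun (i : Fin (k + 1)) j => δ i (x j)) s, by
          rcases s with u | i
          · exact free_jac_self hG hGx
          · exact free_jac_der hGx (δ i)⟩ : LinearMap.ker (jac G x))) := by
      apply LinearIndependent.of_comp (LinearMap.ker (jac G x)).subtype
      exact hli
    have h2 := h1.fintype_card_le_finrank
    rw [Fintype.card_sum, Fintype.card_unit, Fintype.card_fin] at h2
    omega
  have hk : k = n := by omega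
  subst hk
  refine isGeneralType_of_good (r := 0) hd hG hcert hx hgen hGx hz (fun i => i.elim0)
    (fun i => i.elim0) (fun i => i.elim0) (fun i => i.elim0) δ ?_ (by omega) (by simp; omega)
  let e : Unit ⊕ (Fin 0 ⊕ Fin (k + 1)) ≃ Unit ⊕ Fin (k + 1) :=
    (Equiv.refl Unit).sumCongr (Equiv.emptySum (Fin 0) (Fin (k + 1)))
  have h5 := hli.comp e e.injective
  have h6 : (Sum.elim (fun _ : Unit => x) (Sum.elim (fun (i : Fin 0) j =>
      (i.elim0 : Derivation ℤ K K) (x j)) fun i j => δ i (x j))) =
      (Sum.elim (fun _ : Unit => x) fun (i : Fin (k + 1)) j => δ i (x j)) ∘ e := by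
    funext s
    rcases s with u | i | i
    · rfl
    · exact i.elim0
    · rfl
  rw [h6]
  exact h5

end Pool.Agent.H17GT
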