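import Pool.Agent.H17GT.Base

/-!
# Algebraically independent coefficients near given ones
-/

open MvPolynomial

noncomputable section

namespace Pool.Agent.H17GT

private lemma countable_adjoin {α : Type} [Finite α] (b : α → ℂ) :
    Countable (Algebra.adjoin ℚ (Set.range b)) := by
  have h1 : Countable (MvPolynomial α ℚ) := by
    rw [← Cardinal.mk_le_aleph0_iff]
    refine MvPolynomial.cardinalMk_le_max.trans ?_
    rw [max_le_iff, max_le_iff]
    refine ⟨⟨?_, ?_⟩, le_refl _⟩
    · exact Cardinal.mk_le_aleph0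
    · exact Cardinal.mk_le_aleph0
  have h2 : (Algebra.adjoin ℚ (Set.range b) : Set ℂ) =
      Set.range (aeval b : MvPolynomial α ℚ →ₐ[ℚ] ℂ) := by
    rw [Algebra.adjoin_range_eq_range_aeval]
    rfl
  have h3 : (Algebra.adjoin ℚ (Set.range b) : Set ℂ).Countable := by
    rw [h2]
    exact Set.countable_range _
  exact h3.to_subtype

private lemma exists_near (α : Type) [Finite α] : ∀ (a : α → ℂ) (ε : ℝ), 0 < ε →
    ∃ b : α → ℂ, (∀ i, ‖b i - a i‖ < ε) ∧ AlgebraicIndependent ℚ b := by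
  refine Finite.induction_empty_option (P := fun α => ∀ (a : α → ℂ) (ε : ℝ), 0 < ε →
    ∃ b : α → ℂ, (∀ i, ‖b i - a i‖ < ε) ∧ AlgebraicIndependent ℚ b) ?_ ?_ ?_ α
  · intro α β e ih a ε hε
    obtain ⟨b, hb, hi⟩ := ih (a ∘ e) ε hε
    refine ⟨b ∘ e.symm, fun i => ?_, ?_⟩
    · have := hb (e.symm i)
      simpa using this
    · exact (algebraicIndependent_equiv e.symm).2 hi
  · intro a ε _
    exact ⟨a, fun i => i.elim, algebraicIndependent_empty_type⟩
  · intro α _ ih a ε hε
    obtain ⟨b, hb, hi⟩ := ih (fun i => a (some i)) ε hε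
    have hc : Countable (Algebra.adjoin ℚ (Set.range b)) := countable_adjoin b
    have h1 : Set.Countable {x : ℂ | IsAlgebraic (Algebra.adjoin ℚ (Set.range b)) x} :=
      Algebraic.countable _ _
    have h2 : Dense {x : ℂ | IsAlgebraic (Algebra.adjoin ℚ (Set.range b)) x}ᶜ :=
      h1.dense_compl ℝ
    obtain ⟨y, hy, hyd⟩ := h2.exists_dist_lt (a none) hε
    refine ⟨fun o => o.elim y b, fun i => ?_, ?_⟩
    · cases i with
      | none =>
        rw [dist_comm, dist_eq_norm] at hyd
        exact hyd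
      | some i => exact hb i
    · exact (hi.option_iff_transcendental y).2 hy

theorem exists_generic_near {N c : ℕ} {d : Fin c → ℕ} {G₀ : Fin c → MvPolynomial (Fin (N + 1)) ℂ}
    (hG₀ : ∀ l, (G₀ l).IsHomogeneous (d l)) {ε : ℝ} (hε : 0 < ε) :
    ∃ G : Fin c → MvPolynomial (Fin (N + 1)) ℂ, (∀ l, (G l).IsHomogeneous (d l)) ∧
      (∀ l m, ‖(G l).coeff m - (G₀ l).coeff m‖ < ε) ∧ GenericCoefficients d G := by
  classical
  have hfin : ∀ n : ℕ, {m : Fin (N + 1) →₀ ℕ | m.degree = n}.Finite := by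
    intro n
    have h1 : {m : Fin (N + 1) →₀ ℕ | m.degree = n} ⊆
        ↑(Finset.finsuppAntidiag (Finset.univ : Finset (Fin (N + 1))) n) := by
      intro m hm
      rw [Finset.mem_coe, Finset.mem_finsuppAntidiag]
      refine ⟨?_, Finset.subset_univ _⟩
      rw [← hm, Finsupp.degree_eq_sum]
    exact (Finset.finite_toSet _).subset h1
  let Q := {q : Fin c × (Fin (N + 1) →₀ ℕ) // q.2.degree = d q.1}
  have hQ : Finite Q := by
    have h1 : {q : Fin c × (Fin (N + 1) →₀ ℕ) | q.2.degree = d q.1}.Finite := by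
      have h2 : {q : Fin c × (Fin (N + 1) →₀ ℕ) | q.2.degree = d q.1} ⊆
          ⋃ l : Fin c, (Prod.mk l) '' {m : Fin (N + 1) →₀ ℕ | m.degree = d l} := by
        rintro ⟨l, m⟩ h
        rw [Set.mem_iUnion]
        exact ⟨l, m, h, rfl⟩
      exact (Set.finite_iUnion fun l => (hfin (d l)).image _).subset h2
    exact h1.to_subtype
  obtain ⟨b, hb, hi⟩ := exists_near Q (fun q => (G₀ q.1.1).coeff q.1.2) ε hε
  let G : Fin c → MvPolynomial (Fin (N + 1)) ℂ := fun l =>
    ∑ m ∈ (hfin (d l)).toFinset.attach, monomial m.1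
      (b ⟨(l, m.1), (hfin (d l)).mem_toFinset.1 m.2⟩)
  have hcoeff : ∀ l m (h : m.degree = d l), (G l).coeff m = b ⟨(l, m), h⟩ := by
    intro l m h
    have hm : m ∈ (hfin (d l)).toFinset := (hfin (d l)).mem_toFinset.2 h
    rw [coeff_sum]
    rw [Finset.sum_eq_single (⟨m, hm⟩ : {x // x ∈ (hfin (d l)).toFinset})]
    · rw [coeff_monomial, if_pos rfl]
    · intro m' _ hne
      rw [coeff_monomial, if_neg]
      intro h'
      exact hne (Subtype.ext h')
    · intro h'
      exact absurd (Finset.mem_attach _ _) h'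
  have hhom : ∀ l, (G l).IsHomogeneous (d l) := by
    intro l
    refine IsHomogeneous.sum _ _ _ fun m _ => ?_
    exact isHomogeneous_monomial _ ((hfin (d l)).mem_toFinset.1 m.2)
  refine ⟨G, hhom, fun l m => ?_, ?_⟩
  · by_cases h : m.degree = d l
    · rw [hcoeff l m h]
      exact hb ⟨(l, m), h⟩
    · have h1 : (G l).coeff m = 0 := (hhom l).coeff_eq_zero h
      have h2 : (G₀ l).coeff m = 0 := (hG₀ l).coeff_eq_zero h
      rw [h1, h2, sub_zero, norm_zero]
      exact hε
  · have h1 : (fun q : Q => (G q.1.1).coeff q.1.2) = b := by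
      funext q
      rw [hcoeff _ _ q.2]
    change AlgebraicIndependent ℚ (fun q : Q => (G q.1.1).coeff q.1.2)
    rw [h1]
    exact hi

end Pool.Agent.H17GT
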