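import Pool.Agent.H17GT.Base

/-!
# Extension of a derivation of `ℂ` that kills the coordinates
-/

open MvPolynomial
open Pool.Agent.H23 (RatForm regularForms PrimeDivisorOver)

noncomputable section

namespace Pool.Agent.H17GT

variable {K : Type} [Field K] [Algebra ℂ K]

/-- The ring homomorphism to the dual numbers given by a derivation of `ℂ`. -/
private def zeroDual (D : Derivation ℤ ℂ ℂ) : ℂ →+* TrivSqZeroExt K K where
  toFun c := (TrivSqZeroExt.inl (algebraMap ℂ K c) + TrivSqZeroExt.inr (algebraMap ℂ K (D c)))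
  map_one' := by
    ext <;> simp
  map_mul' a b := by
    ext
    · simp
    · simp only [TrivSqZeroExt.snd_add, TrivSqZeroExt.snd_inl, TrivSqZeroExt.snd_inr, zero_add,
        TrivSqZeroExt.snd_mul, TrivSqZeroExt.fst_add, TrivSqZeroExt.fst_inl,
        TrivSqZeroExt.fst_inr, add_zero, Derivation.leibniz, map_add, smul_eq_mul,
        MulOpposite.smul_eq_mul_unop, MulOpposite.unop_op, map_mul]
      ring
  map_zero' := by
    ext <;> simp
  map_add' a b := by
    ext
    · simp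
    · simp only [TrivSqZeroExt.snd_add, TrivSqZeroExt.snd_inl, TrivSqZeroExt.snd_inr, zero_add,
        map_add]

private theorem fst_zeroDual (D : Derivation ℤ ℂ ℂ) (c : ℂ) :
    TrivSqZeroExt.fst (zeroDual (K := K) D c) = algebraMap ℂ K c := by
  simp [zeroDual]

private theorem snd_zeroDual (D : Derivation ℤ ℂ ℂ) (c : ℂ) :
    TrivSqZeroExt.snd (zeroDual (K := K) D c) = algebraMap ℂ K (D c) := by
  simp only [zeroDual, RingHom.coe_mk, MonoidHom.coe_mk, OneHom.coe_mk, TrivSqZeroExt.snd_add,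
    TrivSqZeroExt.snd_inl, TrivSqZeroExt.snd_inr, zero_add]

theorem exists_ext_zero {M : ℕ} {x : Fin M → K}
    (hx : IntermediateField.adjoin ℂ (Set.range x) = ⊤) (T : Finset (MvPolynomial (Fin M) ℂ))
    (hT : Ideal.span (T : Set (MvPolynomial (Fin M) ℂ)) =
      RingHom.ker (aeval x : MvPolynomial (Fin M) ℂ →ₐ[ℂ] K))
    (D : Derivation ℤ ℂ ℂ) (hD : ∀ p ∈ T, ∀ m, D (coeff m p) = 0) :
    ∃ D' : Derivation ℤ K K, Ext D D' ∧ ∀ i, D' (x i) = 0 := by
  classical
  -- the homomorphism on polynomials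
  let Φ : MvPolynomial (Fin M) ℂ →+* TrivSqZeroExt K K :=
    eval₂Hom (zeroDual D) (fun i => TrivSqZeroExt.inl (x i))
  have hΦfst : ∀ p, TrivSqZeroExt.fst (Φ p) = aeval x p := by
    intro p
    have h1 : ((TrivSqZeroExt.fstHom K K K : TrivSqZeroExt K K →ₐ[K] K) :
        TrivSqZeroExt K K →+* K).comp Φ = ((aeval x : MvPolynomial (Fin M) ℂ →ₐ[ℂ] K) :
        MvPolynomial (Fin M) ℂ →+* K) := by
      apply MvPolynomial.ringHom_ext
      · intro c
        simp [Φ, fst_zeroDual]
      · intro i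
        simp [Φ]
    exact RingHom.congr_fun h1 p
  have hΦT : ∀ p ∈ T, Φ p = 0 := by
    intro p hp
    have h1 : aeval x p = 0 := by
      have h2 : p ∈ RingHom.ker (aeval x : MvPolynomial (Fin M) ℂ →ₐ[ℂ] K) := by
        rw [← hT]
        exact Ideal.subset_span hp
      exact h2
    have h3 : Φ p = ∑ m ∈ p.support, zeroDual D (coeff m p) *
        TrivSqZeroExt.inl (∏ i, x i ^ m i) := by
      simp only [Φ, coe_eval₂Hom, eval₂_eq']
      refine Finset.sum_congr rfl fun m _ => ?_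
      congr 1
      have h5 : (TrivSqZeroExt.inl (∏ i, x i ^ m i) : TrivSqZeroExt K K) =
          TrivSqZeroExt.inlHom K K (∏ i, x i ^ m i) := rfl
      rw [h5, map_prod]
      exact Finset.prod_congr rfl fun i _ => (map_pow (TrivSqZeroExt.inlHom K K) _ _).symm
    apply TrivSqZeroExt.ext
    · rw [hΦfst, h1, TrivSqZeroExt.fst_zero]
    · rw [h3, TrivSqZeroExt.snd_zero]
      have h4 : ∀ m ∈ p.support, zeroDual (K := K) D (coeff m p) *
          TrivSqZeroExt.inl (∏ i, x i ^ m i) =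
          TrivSqZeroExt.inl (algebraMap ℂ K (coeff m p) * ∏ i, x i ^ m i) := by
        intro m _
        apply TrivSqZeroExt.ext
        · rw [TrivSqZeroExt.fst_mul, fst_zeroDual, TrivSqZeroExt.fst_inl, TrivSqZeroExt.fst_inl]
        · rw [TrivSqZeroExt.snd_mul, fst_zeroDual, snd_zeroDual, hD p hp m]
          simp
      have h5 : ∑ m ∈ p.support, (TrivSqZeroExt.inl (algebraMap ℂ K (coeff m p) *
          ∏ i, x i ^ m i) : TrivSqZeroExt K K) =
          TrivSqZeroExt.inlHom K K (∑ m ∈ p.support, algebraMap ℂ K (coeff m p) *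
          ∏ i, x i ^ m i) := (map_sum (TrivSqZeroExt.inlHom K K) _ _).symm
      rw [Finset.sum_congr rfl h4, h5]
      exact TrivSqZeroExt.snd_inl _ _
  have hker : ∀ p, aeval x p = 0 → Φ p = 0 := by
    intro p hp
    have h1 : Ideal.span (T : Set (MvPolynomial (Fin M) ℂ)) ≤ RingHom.ker Φ :=
      Ideal.span_le.2 fun p hp => hΦT p hp
    have h2 : p ∈ Ideal.span (T : Set (MvPolynomial (Fin M) ℂ)) := by
      rw [hT]
      exact hp
    exact h1 h2
  -- the homomorphism on the subring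
  let A : Subalgebra ℂ K := (aeval x : MvPolynomial (Fin M) ℂ →ₐ[ℂ] K).range
  let g₀ : MvPolynomial (Fin M) ℂ →+* A :=
    ((aeval x : MvPolynomial (Fin M) ℂ →ₐ[ℂ] K).rangeRestrict : MvPolynomial (Fin M) ℂ →+* A)
  have hg₀ : Function.Surjective g₀ := AlgHom.rangeRestrict_surjective _
  have hg₀c : ∀ p, ((g₀ p : A) : K) = aeval x p := fun _ => rfl
  let Ψ₀ : A →+* TrivSqZeroExt K K := RingHom.liftOfSurjective g₀ hg₀ ⟨Φ, by
    intro p hp
    rw [RingHom.mem_ker] at hp ⊢
    apply hker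
    rw [← hg₀c, hp]
    rfl⟩
  have hΨ₀ : ∀ p, Ψ₀ (g₀ p) = Φ p := fun p => RingHom.liftOfRightInverse_comp_apply g₀ _ _ _ p
  have hfst₀ : ∀ a : A, TrivSqZeroExt.fst (Ψ₀ a) = (a : K) := by
    intro a
    obtain ⟨p, rfl⟩ := hg₀ a
    rw [hΨ₀, hΦfst, hg₀c]
  -- the fraction field
  have hfrac : IsFractionRing A K := by
    have hAeq : A = Algebra.adjoin ℂ (Set.range x) := (Algebra.adjoin_range_eq_range_aeval ℂ x).symm
    refine IsFractionRing.of_field A K fun z => ?_
    have hz : z ∈ IntermediateField.adjoin ℂ (Set.range x) := by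
      rw [hx]
      trivial
    rw [IntermediateField.mem_adjoin_range_iff] at hz
    obtain ⟨r, s, hrs⟩ := hz
    exact ⟨g₀ r, g₀ s, hrs⟩
  have hunit : ∀ y : nonZeroDivisors A, IsUnit (Ψ₀ y) := by
    intro y
    rw [TrivSqZeroExt.isUnit_iff_isUnit_fst, hfst₀]
    refine isUnit_iff_ne_zero.2 ?_
    intro h
    exact nonZeroDivisors.coe_ne_zero y (Subtype.ext h)
  let Ψ : K →+* TrivSqZeroExt K K := IsLocalization.lift (M := nonZeroDivisors A) hunit
  have hΨ : ∀ a : A, Ψ (a : K) = Ψ₀ a := fun a =>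
    IsLocalization.lift_eq (M := nonZeroDivisors A) (S := K) hunit a
  have hfst : ∀ f : K, TrivSqZeroExt.fst (Ψ f) = f := by
    intro f
    have h1 : ((TrivSqZeroExt.fstHom K K K : TrivSqZeroExt K K →ₐ[K] K) :
        TrivSqZeroExt K K →+* K).comp Ψ = RingHom.id K := by
      apply IsLocalization.ringHom_ext (nonZeroDivisors A)
      ext a
      change TrivSqZeroExt.fst (Ψ (a : K)) = (a : K)
      rw [hΨ, hfst₀]
    exact RingHom.congr_fun h1 f
  have hpoly : ∀ p, Ψ (aeval x p) = Φ p := by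
    intro p
    rw [← hg₀c, hΨ, hΨ₀]
  -- the derivation
  let L : K →+ K :=
    { toFun := fun f => TrivSqZeroExt.snd (Ψ f)
      map_zero' := by rw [map_zero, TrivSqZeroExt.snd_zero]
      map_add' := fun a b => by rw [map_add, TrivSqZeroExt.snd_add] }
  refine ⟨Derivation.mk' L.toIntLinearMap ?_, ?_, ?_⟩
  · intro a b
    change TrivSqZeroExt.snd (Ψ (a * b)) = a • TrivSqZeroExt.snd (Ψ b) +
      b • TrivSqZeroExt.snd (Ψ a)
    rw [map_mul, TrivSqZeroExt.snd_mul, hfst, hfst]
    simp [mul_comm]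
  · intro c
    change TrivSqZeroExt.snd (Ψ (algebraMap ℂ K c)) = _
    have h1 : algebraMap ℂ K c = aeval x (C c : MvPolynomial (Fin M) ℂ) := by simp
    rw [h1, hpoly]
    simp only [Φ, coe_eval₂Hom, eval₂_C]
    exact snd_zeroDual D c
  · intro i
    change TrivSqZeroExt.snd (Ψ (x i)) = 0
    have h1 : x i = aeval x (X i : MvPolynomial (Fin M) ℂ) := by simp
    rw [h1, hpoly]
    simp [Φ]

end Pool.Agent.H17GT
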