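import Pool.Agent.H17GT.ModEXT
import Pool.Agent.H17GT.ModZERO

/-!
# Generic translations
-/

open MvPolynomial Cardinal
open Pool.Agent.H23 (RatForm regularForms PrimeDivisorOver)

noncomputable section

namespace Pool.Agent.H17GT

variable {K : Type} [Field K] [Algebra ℂ K]

/-- linear substitution -/
def subst {N : ℕ} (h : Matrix (Fin (N + 1)) (Fin (N + 1)) ℂ) (G : MvPolynomial (Fin (N + 1)) ℂ) :
    MvPolynomial (Fin (N + 1)) ℂ :=
  aeval (fun i => ∑ j, C (h i j) * X j) G

/-- linear motion -/
def move {N : ℕ} (g : Matrix (Fin (N + 1)) (Fin (N + 1)) ℂ) (x : Fin (N + 1) → K) :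
    Fin (N + 1) → K :=
  fun i => ∑ j, algebraMap ℂ K (g i j) * x j

/-! ### Algebraically independent families over a countable subfield -/

private lemma trans_exists_indep (F : Subfield ℂ) (hF : #F ≤ ℵ₀) (E : Type) [Finite E] :
    ∃ z : E → ℂ, AlgebraicIndependent F z := by
  obtain ⟨ι, x, hx⟩ := exists_isTranscendenceBasis' F ℂ
  have hinf : Infinite ι := by
    by_contra hcon
    rw [not_infinite_iff_finite] at hcon
    have h1 := IsAlgClosed.cardinal_eq_cardinal_transcendence_basis_of_aleph0_lt x hx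
      hF (by rw [Cardinal.mk_complex]; exact Cardinal.aleph0_lt_continuum)
    rw [Cardinal.mk_complex] at h1
    have h2 : #ι < ℵ₀ := Cardinal.lt_aleph0_iff_finite.mpr hcon
    simp only [Cardinal.lift_id] at h1
    rw [← h1] at h2
    exact absurd h2 (not_lt.mpr Cardinal.aleph0_le_continuum)
  obtain ⟨n, ⟨e⟩⟩ := Finite.exists_equiv_fin E
  have f : Fin n ↪ ι := ⟨fun i => Infinite.natEmbedding ι i, fun i j h =>
    Fin.ext ((Infinite.natEmbedding ι).injective h)⟩
  exact ⟨x ∘ (f ∘ e), hx.1.comp _ (f.injective.comp e.injective)⟩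

private lemma trans_det_ne_zero (F : Subfield ℂ) {n : ℕ} {z : Fin n × Fin n → ℂ}
    (hz : AlgebraicIndependent F z) : Matrix.det (Matrix.of fun i j => z (i, j)) ≠ 0 := by
  intro h0
  apply Matrix.det_mvPolynomialX_ne_zero (Fin n) F
  apply hz
  rw [map_zero, AlgHom.map_det, ← h0]
  congr 1
  ext i j
  simp [Matrix.mvPolynomialX]

/-! ### Substitutions -/

private lemma subst_add {N : ℕ} (h : Matrix (Fin (N + 1)) (Fin (N + 1)) ℂ)
    (P Q : MvPolynomial (Fin (N + 1)) ℂ) : subst h (P + Q) = subst h P + subst h Q := by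
  simp [subst]

private lemma subst_monomial {N : ℕ} (h : Matrix (Fin (N + 1)) (Fin (N + 1)) ℂ)
    (m : Fin (N + 1) →₀ ℕ) (a : ℂ) : subst h (monomial m a) = C a * subst h (monomial m 1) := by
  rw [subst, subst, aeval_monomial, aeval_monomial, map_one, one_mul]
  rfl

private lemma subst_eq_sum {N : ℕ} (h : Matrix (Fin (N + 1)) (Fin (N + 1)) ℂ)
    (P : MvPolynomial (Fin (N + 1)) ℂ) (s : Finset (Fin (N + 1) →₀ ℕ)) (hs : P.support ⊆ s) :
    subst h P = ∑ m ∈ s, C (coeff m P) * subst h (monomial m 1) := by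
  conv_lhs => rw [P.as_sum]
  rw [subst, map_sum]
  rw [Finset.sum_subset hs]
  · refine Finset.sum_congr rfl fun m _ => ?_
    exact subst_monomial h m _
  · intro m _ hm
    rw [notMem_support_iff] at hm
    simp [hm]

private lemma subst_subst {N : ℕ} {g h : Matrix (Fin (N + 1)) (Fin (N + 1)) ℂ} (hgh : g * h = 1)
    (P : MvPolynomial (Fin (N + 1)) ℂ) : subst h (subst g P) = P := by
  have h1 : (aeval (fun i => ∑ j, C (h i j) * X j :
      Fin (N + 1) → MvPolynomial (Fin (N + 1)) ℂ)).comp
      (aeval (fun i => ∑ j, C (g i j) * X j : Fin (N + 1) → MvPolynomial (Fin (N + 1)) ℂ)) =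
      AlgHom.id ℂ _ := by
    apply MvPolynomial.algHom_ext
    intro i
    simp only [AlgHom.comp_apply, aeval_X, map_sum, map_mul, AlgHom.id_apply]
    have h2 : ∀ j, aeval (fun i => ∑ j, C (h i j) * X j :
      Fin (N + 1) → MvPolynomial (Fin (N + 1)) ℂ) (C (g i j) : MvPolynomial (Fin (N + 1)) ℂ) =
        C (g i j) := fun j => by
      rw [← algebraMap_eq, AlgHom.commutes]
    simp only [h2, Finset.mul_sum]
    rw [Finset.sum_comm]
    have h3 : ∀ k, ∑ j, C (g i j) * (C (h j k) * X k) =
        (C ((g * h) i k) * X k : MvPolynomial (Fin (N + 1)) ℂ) := fun k => by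
      rw [Matrix.mul_apply, map_sum, Finset.sum_mul]
      refine Finset.sum_congr rfl fun j _ => ?_
      rw [map_mul, mul_assoc]
    simp only [h3, hgh, Matrix.one_apply]
    rw [Finset.sum_eq_single i]
    · simp
    · intro b _ hb
      simp [Ne.symm hb]
    · simp
  exact DFunLike.congr_fun h1 P

private lemma subst_isHomogeneous {N n : ℕ} (g : Matrix (Fin (N + 1)) (Fin (N + 1)) ℂ)
    {P : MvPolynomial (Fin (N + 1)) ℂ} (hP : P.IsHomogeneous n) :
    (subst g P).IsHomogeneous n := by
  have h1 := hP.aeval (n := 1)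
    (fun i => ∑ j, C (g i j) * X j : Fin (N + 1) → MvPolynomial (Fin (N + 1)) ℂ) (fun i => by
      apply IsHomogeneous.sum
      intro j _
      have := (isHomogeneous_C (Fin (N + 1)) (g i j)).mul (isHomogeneous_X ℂ j)
      simpa using this)
  simpa [subst] using h1

/-! ### Derivations and coefficients -/

/-- polynomials whose coefficients are killed by `D` -/
private def killed (D : Derivation ℤ ℂ ℂ) (N : ℕ) : Subring (MvPolynomial (Fin (N + 1)) ℂ) where
  carrier := {P | ∀ m, D (coeff m P) = 0}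
  mul_mem' := by
    intro P Q hP hQ m
    rw [coeff_mul, map_sum]
    refine Finset.sum_eq_zero fun p _ => ?_
    rw [D.leibniz, hP, hQ, smul_zero, smul_zero, add_zero]
  one_mem' := by
    intro m
    rw [coeff_one]
    split_ifs <;> simp
  add_mem' := by
    intro P Q hP hQ m
    rw [coeff_add, map_add, hP, hQ, add_zero]
  zero_mem' := by
    intro m
    simp
  neg_mem' := by
    intro P hP m
    rw [coeff_neg, map_neg, hP, neg_zero]

private lemma subst_monomial_mem_killed {N : ℕ} (D : Derivation ℤ ℂ ℂ)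
    {h : Matrix (Fin (N + 1)) (Fin (N + 1)) ℂ} (hD : ∀ i j, D (h i j) = 0)
    (m : Fin (N + 1) →₀ ℕ) : subst h (monomial m 1) ∈ killed D N := by
  classical
  rw [subst, aeval_monomial, map_one, one_mul, Finsupp.prod]
  refine Subring.prod_mem _ fun i _ => Subring.pow_mem _ (Subring.sum_mem _ fun j _ => ?_) _
  intro m'
  rw [coeff_C_mul, coeff_X, D.leibniz, hD]
  split_ifs <;> simp

private lemma der_coeff_subst {N : ℕ} (D : Derivation ℤ ℂ ℂ)
    {h : Matrix (Fin (N + 1)) (Fin (N + 1)) ℂ} (hD : ∀ i j, D (h i j) = 0)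
    {P P' : MvPolynomial (Fin (N + 1)) ℂ} (hP : ∀ m, D (coeff m P) = coeff m P')
    (m' : Fin (N + 1) →₀ ℕ) : D (coeff m' (subst h P)) = coeff m' (subst h P') := by
  classical
  rw [subst_eq_sum h P (P.support ∪ P'.support) Finset.subset_union_left,
    subst_eq_sum h P' (P.support ∪ P'.support) Finset.subset_union_right, coeff_sum, coeff_sum,
    map_sum]
  refine Finset.sum_congr rfl fun m _ => ?_
  rw [coeff_C_mul, coeff_C_mul, D.leibniz, subst_monomial_mem_killed D hD m m', hP]
  simp [mul_comm]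

private lemma der_inverse {n : ℕ} (D : Derivation ℤ ℂ ℂ) {g h : Matrix (Fin n) (Fin n) ℂ}
    (hgh : g * h = 1) (hhg : h * g = 1) (hD : ∀ i j, D (g i j) = 0) : ∀ i j, D (h i j) = 0 := by
  have h1 : g * h.map D = 0 := by
    ext i j
    have h2 := congrArg D (congrFun (congrFun hgh i) j)
    rw [Matrix.mul_apply, map_sum, Matrix.one_apply] at h2
    rw [Matrix.mul_apply, Matrix.zero_apply]
    have h3 : D (if i = j then (1 : ℂ) else 0) = 0 := by split_ifs <;> simp
    rw [h3] at h2
    rw [← h2]
    refine Finset.sum_congr rfl fun k _ => ?_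
    rw [D.leibniz, hD, smul_zero, add_zero, Matrix.map_apply, smul_eq_mul]
  have h4 : h.map D = 0 := by
    have h5 := congrArg (fun M => h * M) h1
    simpa [← Matrix.mul_assoc, hhg] using h5
  intro i j
  exact congrFun (congrFun h4 i) j

theorem exists_free {N c : ℕ} {d : Fin c → ℕ} {G : Fin c → MvPolynomial (Fin (N + 1)) ℂ}
    (hG : ∀ l, (G l).IsHomogeneous (d l)) (hgc : GenericCoefficients d G) {x : Fin (N + 1) → K}
    (hx : IntermediateField.adjoin ℂ (Set.range x) = ⊤) :
    ∃ g h : Matrix (Fin (N + 1)) (Fin (N + 1)) ℂ, g * h = 1 ∧ h * g = 1 ∧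
      FreeCoefficients d (fun l => subst h (G l)) ∧ FreeMotions (move g x) := by
  classical
  obtain ⟨T, hT⟩ := IsNoetherian.noetherian
    (RingHom.ker (aeval x : MvPolynomial (Fin (N + 1)) ℂ →ₐ[ℂ] K))
  set S : Finset ℂ := (T.biUnion fun p => p.support.image fun m => coeff m p) ∪
    (Finset.univ.biUnion fun l => (G l).support.image fun m => coeff m (G l)) with hS
  have hST : ∀ p ∈ T, ∀ m, coeff m p = 0 ∨ coeff m p ∈ S := by
    intro p hp m
    by_cases h0 : coeff m p = 0
    · exact Or.inl h0
    · right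
      rw [hS, Finset.mem_union]
      left
      rw [Finset.mem_biUnion]
      exact ⟨p, hp, Finset.mem_image.mpr ⟨m, mem_support_iff.mpr h0, rfl⟩⟩
  have hSG : ∀ l m, coeff m (G l) = 0 ∨ coeff m (G l) ∈ S := by
    intro l m
    by_cases h0 : coeff m (G l) = 0
    · exact Or.inl h0
    · right
      rw [hS, Finset.mem_union]
      right
      rw [Finset.mem_biUnion]
      exact ⟨l, Finset.mem_univ _, Finset.mem_image.mpr ⟨m, mem_support_iff.mpr h0, rfl⟩⟩
  set F : Subfield ℂ := Subfield.closure (S : Set ℂ) with hFdef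
  have hF : #F ≤ ℵ₀ := by
    refine (Subfield.cardinalMk_closure_le_max _).trans ?_
    refine max_le ?_ le_rfl
    exact (Cardinal.lt_aleph0_of_finite _).le
  have hSF : ∀ a ∈ S, a ∈ F := fun a ha => Subfield.subset_closure ha
  obtain ⟨z, hz⟩ := trans_exists_indep F hF (Fin (N + 1) × Fin (N + 1))
  set g : Matrix (Fin (N + 1)) (Fin (N + 1)) ℂ := Matrix.of fun i j => z (i, j) with hg
  have hdet : IsUnit g.det := (trans_det_ne_zero F hz).isUnit
  have hgh : g * g⁻¹ = 1 := Matrix.mul_nonsing_inv g hdet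
  have hhg : g⁻¹ * g = 1 := Matrix.nonsing_inv_mul g hdet
  refine ⟨g, g⁻¹, hgh, hhg, ?_, ?_⟩
  · intro l m hm
    have hind : AlgebraicIndependent ℚ (Sum.elim z
        (fun q : {q : Fin c × (Fin (N + 1) →₀ ℕ) // q.2.degree = d q.1} =>
          (G q.1.1).coeff q.1.2)) := by
      refine AlgebraicIndependent.sumElim_of_tower (S := F) hgc ?_ hz
      rintro _ ⟨q, rfl⟩
      have h1 : (G q.1.1).coeff q.1.2 ∈ F := by
        rcases hSG q.1.1 q.1.2 with h0 | h0
        · rw [h0]; exact F.zero_mem
        · exact hSF _ h0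
      exact ⟨⟨_, h1⟩, rfl⟩
    set Q := subst g (monomial m 1) with hQ
    have hQhom : Q.IsHomogeneous (d l) :=
      subst_isHomogeneous g (isHomogeneous_monomial 1 hm)
    obtain ⟨D₁, hD₁⟩ := exists_der_of_algebraicIndependent hind
      (Sum.elim (fun _ => 0) fun q => if q.1.1 = l then coeff q.1.2 Q else 0)
    set D : Derivation ℤ ℂ ℂ := D₁.restrictScalars ℤ with hDdef
    have hDD : ∀ a, D a = D₁ a := fun a => rfl
    have hDg : ∀ i j, D (g i j) = 0 := fun i j => hD₁ (Sum.inl (i, j))
    have hDh := der_inverse D hgh hhg hDg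
    refine ⟨D, fun l' m' => ?_⟩
    have h1 : ∀ m'', D (coeff m'' (G l')) = coeff m'' (if l' = l then Q else 0) := by
      intro m''
      by_cases hdeg : m''.degree = d l'
      · have h2 := hD₁ (Sum.inr ⟨(l', m''), hdeg⟩)
        rw [hDD]
        refine h2.trans ?_
        simp only [Sum.elim_inr]
        split_ifs <;> simp
      · have h3 : coeff m'' (G l') = 0 := (hG l').coeff_eq_zero hdeg
        rw [h3, map_zero]
        split_ifs with hl
        · subst hl
          rw [hQhom.coeff_eq_zero hdeg]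
        · simp
    rw [der_coeff_subst D hDh h1 m']
    by_cases hl : l' = l
    · rw [if_pos hl, hQ, subst_subst hgh, coeff_monomial]
      simp [hl, eq_comm]
    · simp [hl, subst]
  · intro i j
    obtain ⟨D₁, hD₁⟩ := exists_der_of_algebraicIndependent hz
      (fun p => if p.1 = i then g j p.2 else 0)
    set D : Derivation ℤ ℂ ℂ := D₁.restrictScalars ℤ with hDdef
    have hDD : ∀ a, D a = D₁ a := fun a => rfl
    have hDT : ∀ p ∈ T, ∀ m, D (coeff m p) = 0 := by
      intro p hp m
      rcases hST p hp m with h0 | h0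
      · rw [h0, map_zero]
      · rw [hDD]
        exact D₁.map_algebraMap ⟨_, hSF _ h0⟩
    obtain ⟨D', hext, hzero⟩ := exists_ext_zero hx T hT D hDT
    refine ⟨D, D', hext, fun i' => ?_⟩
    rw [move, map_sum]
    have h1 : ∀ q, D' (algebraMap ℂ K (g i' q) * x q) =
        if i' = i then algebraMap ℂ K (g j q) * x q else 0 := by
      intro q
      rw [D'.leibniz, hzero, smul_zero, zero_add, hext, hDD]
      have h2 : D₁ (g i' q) = if i' = i then g j q else 0 := hD₁ (i', q)
      rw [h2]
      split_ifs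
      · rw [smul_eq_mul, mul_comm]
      · simp
    simp only [h1]
    split_ifs
    · rfl
    · simp

/-! ### Smoothness -/

private lemma eval_subst {N : ℕ} (h : Matrix (Fin (N + 1)) (Fin (N + 1)) ℂ)
    (x : Fin (N + 1) → ℂ) (P : MvPolynomial (Fin (N + 1)) ℂ) :
    eval x (subst h P) = eval (h.mulVec x) P := by
  induction P using MvPolynomial.induction_on with
  | C a => simp [subst]
  | add p q hp hq => rw [subst_add, map_add, map_add, hp, hq]
  | mul_X p i hp =>
    have h1 : subst h (p * X i) = subst h p * ∑ j, C (h i j) * X j := by simp [subst]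
    rw [h1, map_mul, map_mul, hp, eval_X]
    congr 1
    simp [Matrix.mulVec, dotProduct]

private lemma eval_pderiv_subst {N : ℕ} (h : Matrix (Fin (N + 1)) (Fin (N + 1)) ℂ)
    (x : Fin (N + 1) → ℂ) (P : MvPolynomial (Fin (N + 1)) ℂ) (j : Fin (N + 1)) :
    eval x (pderiv j (subst h P)) =
      ∑ i, eval (h.mulVec x) (pderiv i P) * h i j := by
  classical
  induction P using MvPolynomial.induction_on with
  | C a => simp [subst]
  | add p q hp hq =>
    rw [subst_add, map_add, map_add, hp, hq, ← Finset.sum_add_distrib]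
    refine Finset.sum_congr rfl fun i _ => ?_
    rw [map_add, map_add, add_mul]
  | mul_X p i hp =>
    have h1 : subst h (p * X i) = subst h p * ∑ j, C (h i j) * X j := by simp [subst]
    have h2 : pderiv j (∑ j, C (h i j) * X j : MvPolynomial (Fin (N + 1)) ℂ) = C (h i j) := by
      rw [map_sum, Finset.sum_eq_single j]
      · simp
      · intro b _ hb
        simp [pderiv_X_of_ne hb]
      · simp
    have h3 : eval x (∑ j, C (h i j) * X j : MvPolynomial (Fin (N + 1)) ℂ) = h.mulVec x i := by
      simp [Matrix.mulVec, dotProduct]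
    rw [h1, Derivation.leibniz, h2, map_add, smul_eq_mul, smul_eq_mul, map_mul, map_mul, hp, h3,
      eval_subst, eval_C]
    have h4 : ∀ k, eval (h.mulVec x) (pderiv k (p * X i)) * h k j =
        (if k = i then eval (h.mulVec x) p * h i j else 0) +
          h.mulVec x i * (eval (h.mulVec x) (pderiv k p) * h k j) := by
      intro k
      rw [Derivation.leibniz, smul_eq_mul, smul_eq_mul, map_add, map_mul, map_mul, eval_X]
      split_ifs with hk
      · subst hk
        rw [pderiv_X_self, map_one]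
        ring
      · rw [pderiv_X_of_ne (Ne.symm hk), map_zero]
        ring
    simp only [h4]
    rw [Finset.sum_add_distrib, ← Finset.mul_sum]
    simp

theorem smooth_subst {N c : ℕ} {G : Fin c → MvPolynomial (Fin (N + 1)) ℂ}
    (hsm : H17.SmoothIntersection G) {g h : Matrix (Fin (N + 1)) (Fin (N + 1)) ℂ}
    (hgh : g * h = 1) (hhg : h * g = 1) : H17.SmoothIntersection fun l => subst h (G l) := by
  intro x hx hGx
  have hy : h.mulVec x ≠ 0 := by
    intro h0
    apply hx
    have h1 := congrArg g.mulVec h0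
    simpa [Matrix.mulVec_mulVec, hgh] using h1
  have h2 := hsm (h.mulVec x) hy fun l => by
    rw [← eval_subst]
    exact hGx l
  have hker : LinearMap.ker (Matrix.vecMulLinear h) = ⊥ := by
    rw [LinearMap.ker_eq_bot]
    intro v w hvw
    have h3 := congrArg (fun u => Matrix.vecMul u g) hvw
    simpa [Matrix.vecMulLinear_apply, Matrix.vecMul_vecMul, hhg] using h3
  have h4 := h2.map' (Matrix.vecMulLinear h) hker
  have h5 : (fun (l : Fin c) (j : Fin (N + 1)) => eval x (pderiv j (subst h (G l)))) =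
      Matrix.vecMulLinear h ∘ fun l j => eval (h.mulVec x) (pderiv j (G l)) := by
    funext l j
    rw [eval_pderiv_subst]
    simp [Matrix.vecMul, dotProduct]
  rw [← h5] at h4
  exact h4

end Pool.Agent.H17GT
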