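import Pool.Agent.H17GT.Point
import Pool.Agent.H17GT.ModFREE
import Pool.Agent.H17GT.ModTRANS
import Pool.Agent.H17GT.ModCERT
import Pool.Agent.H17GT.ModNEAR

/-!
# Subvarieties of generic complete intersections are of general type
-/

open MvPolynomial
open Pool.Agent.H17 (SmoothIntersection)

noncomputable section

namespace Pool.Agent.H17GT

variable {N c : ℕ}

theorem essFiniteType_functionField (P : Ideal (MvPolynomial (Fin (N + 1)) ℂ)) [P.IsPrime] :
    Algebra.EssFiniteType ℂ (functionField P) := by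
  rw [IntermediateField.essFiniteType_iff]
  have hfin : {y | ∃ i j, y = coordFun P i / coordFun P j}.Finite := by
    have : {y | ∃ i j, y = coordFun P i / coordFun P j} =
        Set.range fun q : Fin (N + 1) × Fin (N + 1) => coordFun P q.1 / coordFun P q.2 := by
      ext y
      constructor
      · rintro ⟨i, j, rfl⟩
        exact ⟨(i, j), rfl⟩
      · rintro ⟨⟨i, j⟩, rfl⟩
        exact ⟨i, j, rfl⟩
    rw [this]
    exact Set.finite_range _
  refine ⟨hfin.toFinset, ?_⟩
  rw [functionField, Set.Finite.coe_toFinset]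

lemma aeval_subst {K : Type} [Field K] [Algebra ℂ K] {g h : Matrix (Fin (N + 1)) (Fin (N + 1)) ℂ}
    (hhg : h * g = 1) (G : MvPolynomial (Fin (N + 1)) ℂ) (x : Fin (N + 1) → K) :
    aeval (move g x) (subst h G) = aeval x G := by
  have h1 : (aeval (move g x)).comp (aeval fun i => ∑ j, C (h i j) * X j) =
      (aeval x : MvPolynomial (Fin (N + 1)) ℂ →ₐ[ℂ] K) := by
    apply MvPolynomial.algHom_ext
    intro i
    rw [AlgHom.comp_apply, aeval_X, aeval_X, map_sum]
    have h2 : ∀ j, aeval (move g x) (C (h i j) * X j : MvPolynomial (Fin (N + 1)) ℂ) =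
        ∑ q, algebraMap ℂ K (h i j * g j q) * x q := by
      intro j
      rw [map_mul, aeval_X]
      simp only [move, Finset.mul_sum, map_mul]
      refine Finset.sum_congr rfl fun q _ => ?_
      rw [← algebraMap_eq, AlgHom.commutes]
      ring
    simp only [h2]
    rw [Finset.sum_comm]
    have h3 : ∀ q, ∑ j, algebraMap ℂ K (h i j * g j q) * x q =
        algebraMap ℂ K ((h * g) i q) * x q := by
      intro q
      rw [Matrix.mul_apply, map_sum, Finset.sum_mul]
    simp only [h3, hhg, Matrix.one_apply]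
    simp
  exact DFunLike.congr_fun h1 G

lemma move_move {K : Type} [Field K] [Algebra ℂ K] {g h : Matrix (Fin (N + 1)) (Fin (N + 1)) ℂ}
    (hhg : h * g = 1) (x : Fin (N + 1) → K) : move h (move g x) = x := by
  funext i
  simp only [move, Finset.mul_sum]
  rw [Finset.sum_comm]
  have h3 : ∀ q, ∑ j, algebraMap ℂ K (h i j) * (algebraMap ℂ K (g j q) * x q) =
      algebraMap ℂ K ((h * g) i q) * x q := by
    intro q
    rw [Matrix.mul_apply, map_sum, Finset.sum_mul]
    refine Finset.sum_congr rfl fun j _ => ?_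
    rw [map_mul, mul_assoc]
  simp only [h3, hhg, Matrix.one_apply]
  simp

lemma subst_homogeneous (h : Matrix (Fin (N + 1)) (Fin (N + 1)) ℂ)
    {G : MvPolynomial (Fin (N + 1)) ℂ} {d : ℕ} (hG : G.IsHomogeneous d) :
    (subst h G).IsHomogeneous d := by
  unfold subst
  have := hG.aeval (fun i => ∑ j, C (h i j) * X j) (n := 1) fun i => ?_
  · simpa using this
  · refine IsHomogeneous.sum _ _ _ fun j _ => ?_
    simpa using (isHomogeneous_C (Fin (N + 1)) (h i j)).mul (isHomogeneous_X ℂ j)

/-- Projective transformations do not change the function field. -/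
lemma adjoin_move {K : Type} [Field K] [Algebra ℂ K] {g h : Matrix (Fin (N + 1)) (Fin (N + 1)) ℂ}
    (hhg : h * g = 1) {x : Fin (N + 1) → K}
    (hx : x ≠ 0) (hgen : IntermediateField.adjoin ℂ {y | ∃ i j, y = x i / x j} = ⊤) :
    move g x ≠ 0 ∧
      IntermediateField.adjoin ℂ {y | ∃ i j, y = move g x i / move g x j} = ⊤ := by
  have h0 : move g x ≠ 0 := by
    intro h0
    apply hx
    rw [← move_move hhg x, h0]
    funext i
    simp [move]
  refine ⟨h0, ?_⟩
  obtain ⟨p, hp⟩ : ∃ p, move g x p ≠ 0 := by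
    by_contra hcon
    push Not at hcon
    exact h0 (funext hcon)
  rw [eq_top_iff, ← hgen, IntermediateField.adjoin_le_iff]
  set F := IntermediateField.adjoin ℂ {y | ∃ i j, y = move g x i / move g x j} with hF
  have h1 : ∀ i, x i / move g x p ∈ F := by
    intro i
    have h2 : x i = ∑ j, algebraMap ℂ K (h i j) * move g x j := by
      conv_lhs => rw [← move_move hhg x]
      rfl
    rw [h2, Finset.sum_div]
    refine sum_mem fun j _ => ?_
    rw [mul_div_assoc]
    exact mul_mem (F.algebraMap_mem _) (IntermediateField.subset_adjoin _ _ ⟨j, p, rfl⟩)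
  rintro y ⟨i, j, rfl⟩
  have h3 : x i / x j = (x i / move g x p) / (x j / move g x p) := by
    rw [div_div_div_cancel_right₀ hp]
  rw [h3]
  exact div_mem (h1 i) (h1 j)

/-- **Clemens, Ein, Voisin**: all subvarieties of positive dimension of a smooth complete
intersection with algebraically independent coefficients and `∑ d ≥ 2 N - c + 1` are of general
type. -/
theorem allGeneralType_one {d : Fin c → ℕ} (hd : ∀ l, 1 ≤ d l)
    {G : Fin c → MvPolynomial (Fin (N + 1)) ℂ} (hG : ∀ l, (G l).IsHomogeneous (d l))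
    (hsm : SmoothIntersection G) (hgc : GenericCoefficients d G)
    (hdeg : 2 * N + 1 ≤ ∑ l, d l + c) : AllGeneralType G 1 := by
  intro P _ _ hGP k hk hz
  obtain ⟨z, hz⟩ := hz
  obtain ⟨k, rfl⟩ : ∃ k', k = k' + 1 := ⟨k - 1, by omega⟩
  haveI := essFiniteType_functionField P
  obtain ⟨x, hx, hgen, hgen', hGx⟩ := exists_point P z hz
  obtain ⟨g, h, hgh, hhg, h₁, h₂⟩ := exists_free hG hgc hgen'
  obtain ⟨hx', hgen''⟩ := adjoin_move hhg hx hgen
  refine isGeneralType_of_free (d := d) (G := fun l => subst h (G l)) hd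
    (fun l => subst_homogeneous h (hG l)) (certificate_of_smooth (smooth_subst hsm hgh hhg)) hx'
    hgen'' (fun l => ?_) hz h₁ h₂ hdeg
  rw [aeval_subst hhg]
  exact hGx _ _ (hG l) (hGP l)

/-- The smooth complete intersections with ample canonical bundle are of general type. -/
theorem allGeneralType_top {n : ℕ} {d : Fin c → ℕ} (hd : ∀ l, 1 ≤ d l)
    {G : Fin c → MvPolynomial (Fin (n + 1 + c + 1)) ℂ} (hG : ∀ l, (G l).IsHomogeneous (d l))
    (hsm : SmoothIntersection G) (hdeg : n + c + 3 ≤ ∑ l, d l) : AllGeneralType G (n + 1) := by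
  intro P _ _ hGP k hk hz
  obtain ⟨z, hz⟩ := hz
  obtain ⟨k, rfl⟩ : ∃ k', k = k' + 1 := ⟨k - 1, by omega⟩
  haveI := essFiniteType_functionField P
  obtain ⟨x, hx, hgen, hgen', hGx⟩ := exists_point P z hz
  exact isGeneralType_of_top hd hG (certificate_of_smooth hsm) hx hgen
    (fun l => hGx _ _ (hG l) (hGP l)) (by omega) hz hdeg

end Pool.Agent.H17GT
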