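import Pool.Agent.H17GT.Defs
import Pool.Agent.H23.Forms
import Pool.Agent.H17.OpenHyperbolic

/-!
# Subvarieties of generic complete intersections: notation
-/

open MvPolynomial
open Pool.Agent.H23 (RatForm regularForms PrimeDivisorOver)

noncomputable section

namespace Pool.Agent.H17GT

variable {K : Type} [Field K] [Algebra ℂ K]

/-- `D'` extends the derivation `D` of `ℂ`. -/
def Ext (D : Derivation ℤ ℂ ℂ) (D' : Derivation ℤ K K) : Prop :=
  ∀ c : ℂ, D' (algebraMap ℂ K c) = algebraMap ℂ K (D c)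

/-- Apply `φ` to the coefficients of `G` and evaluate at `x`. -/
def coefEval {σ : Type*} (φ : ℂ → K) (x : σ → K) (G : MvPolynomial σ ℂ) : K :=
  ∑ m ∈ G.support, φ (G.coeff m) * m.prod fun i e => x i ^ e

/-- The Jacobian of the polynomials `G l` at `x`, as a linear map. -/
def jac {N c : ℕ} (G : Fin c → MvPolynomial (Fin (N + 1)) ℂ) (x : Fin (N + 1) → K) :
    (Fin (N + 1) → K) →ₗ[K] (Fin c → K) :=
  Matrix.mulVecLin (Matrix.of fun l i => aeval x (pderiv i (G l)))

/-- `D'` is, up to the factor `s ^ w` and a derivation over `ℂ`, regular along every prime divisor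
along which all `x i / s` are regular. -/
def Good {N : ℕ} (k : ℕ) (x : Fin (N + 1) → K) (w : ℕ) (D' : Derivation ℤ K K) : Prop :=
  ∀ (E : PrimeDivisorOver K k) (s : K), s ≠ 0 → (∀ i, 0 ≤ E.ord (x i / s)) →
    ∃ (D'' : Derivation ℤ K K) (γ : Derivation ℂ K K),
      (∀ f, 0 ≤ E.ord f → 0 ≤ E.ord (D'' f)) ∧ ∀ f, D' f = s ^ w * (D'' f + γ f)

/-- Some power of every variable is in the ideal generated by the forms `G l` and by the maximal
minors of their Jacobian matrix. -/
def Certificate {N c : ℕ} (G : Fin c → MvPolynomial (Fin (N + 1)) ℂ) : Prop :=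
  ∀ j, ∃ (M : ℕ) (A : Fin c → MvPolynomial (Fin (N + 1)) ℂ)
    (B : (Fin c → Fin (N + 1)) → MvPolynomial (Fin (N + 1)) ℂ),
    (X j) ^ M = ∑ l, A l * G l + ∑ I, B I * Matrix.det (Matrix.of fun l m => pderiv (I m) (G l))

/-- All values of derivations of `ℂ` at the coefficients of the `G l` occur. -/
def FreeCoefficients {N c : ℕ} (d : Fin c → ℕ) (G : Fin c → MvPolynomial (Fin (N + 1)) ℂ) : Prop :=
  ∀ l m, Finsupp.degree m = d l → ∃ D : Derivation ℤ ℂ ℂ,
    ∀ l' m', D ((G l').coeff m') = if l' = l ∧ m' = m then 1 else 0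

/-- The infinitesimal motions `x_i ↦ x_j` come from derivations of `ℂ`. -/
def FreeMotions {N : ℕ} (x : Fin (N + 1) → K) : Prop :=
  ∀ i j, ∃ (D : Derivation ℤ ℂ ℂ) (D' : Derivation ℤ K K), Ext D D' ∧
    ∀ i', D' (x i') = if i' = i then x j else 0

end Pool.Agent.H17GT
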