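import Pool.Agent.H17GT.ModREG

/-!
# Derivations and evaluation of polynomials; good derivations
-/

open MvPolynomial
open Pool.Agent.H23 (RatForm regularForms PrimeDivisorOver)

noncomputable section

namespace Pool.Agent.H17GT

variable {K : Type} [Field K] [Algebra ℂ K]

omit [Algebra ℂ K] in
/-- The sum defining `coefEval` may be taken over any larger set of exponents. -/
theorem coefEval_eq_sum {σ : Type*} {φ : ℂ → K} (h0 : φ 0 = 0) (x : σ → K) (G : MvPolynomial σ ℂ)
    {S : Finset (σ →₀ ℕ)} (hS : G.support ⊆ S) :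
    coefEval φ x G = ∑ m ∈ S, φ (G.coeff m) * m.prod fun i e => x i ^ e := by
  unfold coefEval
  refine Finset.sum_subset hS fun m _ hm => ?_
  rw [notMem_support_iff.1 hm, h0, zero_mul]

omit [Algebra ℂ K] in
theorem coefEval_add {σ : Type*} {φ : ℂ → K} (h0 : φ 0 = 0) (hφ : ∀ a b, φ (a + b) = φ a + φ b)
    (x : σ → K) (G H : MvPolynomial σ ℂ) :
    coefEval φ x (G + H) = coefEval φ x G + coefEval φ x H := by
  classical
  rw [coefEval_eq_sum h0 x (G + H) (S := G.support ∪ H.support) support_add,
    coefEval_eq_sum h0 x G (S := G.support ∪ H.support) Finset.subset_union_left,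
    coefEval_eq_sum h0 x H (S := G.support ∪ H.support) Finset.subset_union_right,
    ← Finset.sum_add_distrib]
  refine Finset.sum_congr rfl fun m _ => ?_
  rw [coeff_add, hφ, add_mul]

omit [Algebra ℂ K] in
theorem coefEval_monomial {σ : Type*} {φ : ℂ → K} (h0 : φ 0 = 0) (x : σ → K) (m : σ →₀ ℕ)
    (a : ℂ) : coefEval φ x (monomial m a) = φ a * m.prod fun i e => x i ^ e := by
  classical
  rw [coefEval_eq_sum h0 x _ (S := {m}) support_monomial_subset, Finset.sum_singleton,
    coeff_monomial, if_pos rfl]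

omit [Algebra ℂ K] in
theorem coefEval_mul_X {σ : Type*} {φ : ℂ → K} (h0 : φ 0 = 0)
    (hφ : ∀ a b, φ (a + b) = φ a + φ b) (x : σ → K) (G : MvPolynomial σ ℂ) (n : σ) :
    coefEval φ x (G * X n) = coefEval φ x G * x n := by
  classical
  induction G using MvPolynomial.induction_on' with
  | monomial m a =>
    rw [X, monomial_mul, mul_one, coefEval_monomial h0, coefEval_monomial h0, mul_assoc]
    congr 1
    rw [Finsupp.prod_add_index' (h := fun i e => x i ^ e) (fun i => pow_zero _)
      (fun i a b => pow_add _ _ _),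
      Finsupp.prod_single_index (h := fun i e => x i ^ e) (pow_zero _), pow_one]
  | add p q hp hq =>
    rw [add_mul, coefEval_add h0 hφ, hp, hq, coefEval_add h0 hφ, add_mul]

theorem der_aeval {σ : Type*} [Fintype σ] (D' : Derivation ℤ K K) (x : σ → K)
    (G : MvPolynomial σ ℂ) :
    D' (aeval x G) = coefEval (fun a => D' (algebraMap ℂ K a)) x G +
      ∑ i, aeval x (pderiv i G) * D' (x i) := by
  classical
  have h0 : (fun a : ℂ => D' (algebraMap ℂ K a)) 0 = 0 := by simp
  have hφ : ∀ a b, (fun a : ℂ => D' (algebraMap ℂ K a)) (a + b) =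
      (fun a : ℂ => D' (algebraMap ℂ K a)) a + (fun a : ℂ => D' (algebraMap ℂ K a)) b := by
    intro a b
    simp
  induction G using MvPolynomial.induction_on with
  | C a =>
    have h1 : (C a : MvPolynomial σ ℂ) = monomial 0 a := rfl
    rw [h1, coefEval_monomial h0, ← h1]
    simp
  | add p q hp hq =>
    rw [map_add, map_add, hp, hq, coefEval_add h0 hφ]
    simp only [map_add, add_mul, Finset.sum_add_distrib]
    ring
  | mul_X p n hp =>
    rw [map_mul, aeval_X, Derivation.leibniz, hp, coefEval_mul_X h0 hφ]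
    simp only [Derivation.leibniz, smul_eq_mul, map_add, map_mul, aeval_X, add_mul,
      Finset.sum_add_distrib]
    have h1 : ∑ i, aeval x p * aeval x (pderiv i (X n : MvPolynomial σ ℂ)) * D' (x i) =
        aeval x p * D' (x n) := by
      rw [Finset.sum_eq_single n]
      · simp
      · intro i _ hi
        rw [pderiv_X_of_ne (Ne.symm hi)]
        simp
      · intro h
        exact absurd (Finset.mem_univ _) h
    have h2 : ∑ i, x n * aeval x (pderiv i p) * D' (x i) =
        x n * ∑ i, aeval x (pderiv i p) * D' (x i) := by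
      rw [Finset.mul_sum]
      exact Finset.sum_congr rfl fun i _ => mul_assoc _ _ _
    rw [h1, h2]
    ring

/-- A derivation which vanishes on `ℂ` is a derivation over `ℂ`. -/
def overC (D' : Derivation ℤ K K) (h : ∀ c : ℂ, D' (algebraMap ℂ K c) = 0) : Derivation ℂ K K :=
  Derivation.mk'
    { toFun := fun f => D' f
      map_add' := fun f g => map_add D' f g
      map_smul' := fun c f => by
        rw [Algebra.smul_def, Derivation.leibniz, h c, smul_zero, add_zero, smul_eq_mul,
          RingHom.id_apply, Algebra.smul_def] }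
    (fun f g => D'.leibniz f g)

theorem overC_apply (D' : Derivation ℤ K K) (h : ∀ c : ℂ, D' (algebraMap ℂ K c) = 0) (f : K) :
    overC D' h f = D' f := rfl

theorem good_of_ext [Algebra.EssFiniteType ℂ K] {N k : ℕ} {z : Fin (k + 1) → K}
    (hz : IsTranscendenceBasis ℂ z) (x : Fin (N + 1) → K) {D : Derivation ℤ ℂ ℂ}
    {D' : Derivation ℤ K K} (hD : Ext D D') : Good (k + 1) x 0 D' := by
  intro E s hs hx
  obtain ⟨D'', h1, h2⟩ := exists_ext_regular hz E D
  refine ⟨D'', overC (D' - D'') fun c => ?_, h2, fun f => ?_⟩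
  · rw [Derivation.sub_apply, hD c, h1 c, sub_self]
  · rw [overC_apply, Derivation.sub_apply, pow_zero, one_mul, add_sub_cancel]

theorem good_of_ext_pair [Algebra.EssFiniteType ℂ K] {N k : ℕ} {z : Fin (k + 1) → K}
    (hz : IsTranscendenceBasis ℂ z) (x : Fin (N + 1) → K) {D₁ D₂ : Derivation ℤ ℂ ℂ}
    {D₁' D₂' : Derivation ℤ K K} (h₁ : Ext D₁ D₁') (h₂ : Ext D₂ D₂') (p q : Fin (N + 1)) :
    Good (k + 1) x 1 (x p • D₁' - x q • D₂') := by
  intro E s hs hx
  obtain ⟨D₁'', e1, r1⟩ := exists_ext_regular hz E D₁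
  obtain ⟨D₂'', e2, r2⟩ := exists_ext_regular hz E D₂
  have hc1 : ∀ c : ℂ, (D₁' - D₁'') (algebraMap ℂ K c) = 0 := fun c => by
    rw [Derivation.sub_apply, h₁ c, e1 c, sub_self]
  have hc2 : ∀ c : ℂ, (D₂' - D₂'') (algebraMap ℂ K c) = 0 := fun c => by
    rw [Derivation.sub_apply, h₂ c, e2 c, sub_self]
  refine ⟨(x p / s) • D₁'' - (x q / s) • D₂'',
    (x p / s) • overC _ hc1 - (x q / s) • overC _ hc2, fun f hf => ?_, fun f => ?_⟩
  · rw [Derivation.sub_apply, Derivation.smul_apply, Derivation.smul_apply, smul_eq_mul,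
      smul_eq_mul]
    have a1 : 0 ≤ E.ord (x p / s * D₁'' f) := by
      rw [AddValuation.map_mul]
      exact add_nonneg (hx p) (r1 f hf)
    have a2 : 0 ≤ E.ord (x q / s * D₂'' f) := by
      rw [AddValuation.map_mul]
      exact add_nonneg (hx q) (r2 f hf)
    exact le_trans (le_min a1 a2) (E.ord.map_sub _ _)
  · simp only [Derivation.sub_apply, Derivation.smul_apply, smul_eq_mul, overC_apply, pow_one]
    field_simp
    ring

end Pool.Agent.H17GT
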