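import Pool.Agent.H17GT.Base
import Pool.Agent.H17GT.ModDER
import Pool.Agent.H17GT.ModEXT

/-!
# Regular extensions of derivations along a prime divisor
-/

open MvPolynomial
open Pool.Agent.H23 (RatForm regularForms PrimeDivisorOver)

noncomputable section

namespace Pool.Agent.H17GT

variable {K : Type} [Field K] [Algebra ℂ K]

/-- Every derivation of `ℂ` extends to a derivation of `K` which is regular along a given prime
divisor. -/
theorem exists_ext_regular [Algebra.EssFiniteType ℂ K] {k : ℕ} {z : Fin (k + 1) → K}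
    (hz : IsTranscendenceBasis ℂ z) (E : PrimeDivisorOver K (k + 1)) (D : Derivation ℤ ℂ ℂ) :
    ∃ D' : Derivation ℤ K K, Ext D D' ∧ ∀ f, 0 ≤ E.ord f → 0 ≤ E.ord (D' f) := by
  obtain ⟨t, ht⟩ := E.exists_uniformizer
  obtain ⟨s, hs0, hs⟩ := E.residue_trdeg
  change Fin k → K at s
  change ∀ i : Fin k, 0 ≤ E.ord (s i) at hs0
  change ∀ p : MvPolynomial (Fin k) ℂ, p ≠ 0 → E.ord (MvPolynomial.aeval s p) = 0 at hs
  set g : Fin (k + 1) → K := Fin.cons t s with hg
  have hind : AlgebraicIndependent ℂ g := by
    rw [algebraicIndependent_iff_injective_aeval]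
    have h1 : (MvPolynomial.aeval g : MvPolynomial (Fin (k + 1)) ℂ → K) =
        H23.ev s t ∘ MvPolynomial.finSuccEquiv ℂ k := by
      funext p
      exact H23.aeval_cons s t p
    rw [h1]
    exact (H23.ev_injective E.ord hs ht).comp (MvPolynomial.finSuccEquiv ℂ k).injective
  have hbasis : IsTranscendenceBasis ℂ g := by
    apply hind.isTranscendenceBasis_of_trdeg_le_of_finite
    rw [← hz.cardinalMk_eq_trdeg]
  obtain ⟨D', hext, hD'⟩ := exists_ext_values hind D (fun _ => 0)
  refine ⟨D', hext, ?_⟩
  apply der_nonneg_of_ext E.ord hs ht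
  · intro f
    obtain ⟨F, h1, h2⟩ := H23.exists_poly_of_basis hbasis f
    refine ⟨F.map (MvPolynomial.finSuccEquiv ℂ k).toRingEquiv.toRingHom, ?_, ?_⟩
    · rwa [Ne, Polynomial.map_eq_zero_iff]
      exact (MvPolynomial.finSuccEquiv ℂ k).injective
    · rw [Polynomial.eval₂_map]
      have h3 : (H23.ev s t).comp (MvPolynomial.finSuccEquiv ℂ k).toRingEquiv.toRingHom =
          (MvPolynomial.aeval g).toRingHom :=
        RingHom.ext fun p => (H23.aeval_cons s t p).symm
      rw [h3]
      exact h2
  · intro c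
    rw [hext c]
    exact E.ord_const _
  · have := hD' 0
    rw [hg, Fin.cons_zero] at this
    rw [this]
    simp
  · intro j
    have := hD' j.succ
    rw [hg, Fin.cons_succ] at this
    rw [this]
    simp

end Pool.Agent.H17GT
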